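import Pool.Agent.Q260.DT.Stm2
import Pool.Agent.H24R2.JP.B1

set_option autoImplicit false

/-!
# Project DT (helper260), job BG: no zeros far to the right (by helper224)
-/

namespace Pool.Agent.Q224.DTG

open Complex Filter Topology Metric Set MeasureTheory
open Pool.Agent.Q260.DT
open Pool.Agent.H24R2.JP (XX)
open Pool.Agent.W169.HF H353.E H353.F Q240.GS

/-! ### Bounds for zeta (from `Pool/Agent/H727R2/RZ_MZ.lean`) -/

/-- real zeta sum -/
noncomputable def zr (σ : ℝ) : ℝ := ∑' n : ℕ, 1 / (n : ℝ) ^ σ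

theorem summ {σ : ℝ} (h : 1 < σ) : Summable (fun n : ℕ => 1 / (n : ℝ) ^ σ) :=
  Real.summable_one_div_nat_rpow.mpr h

theorem term_norm (w : ℂ) (hw : 1 < w.re) (n : ℕ) :
    ‖1 / (n : ℂ) ^ w‖ = 1 / (n : ℝ) ^ w.re := by
  rcases Nat.eq_zero_or_pos n with rfl | hn
  · have h1 : w ≠ 0 := by
      intro h; rw [h] at hw; simp at hw; linarith
    have h2 : w.re ≠ 0 := by linarith
    simp [Complex.zero_cpow h1, Real.zero_rpow h2]
  · rw [norm_div, norm_one, Complex.norm_natCast_cpow_of_pos hn]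

theorem norm_zeta_le (w : ℂ) (hw : 1 < w.re) : ‖riemannZeta w‖ ≤ zr w.re := by
  rw [zeta_eq_tsum_one_div_nat_cpow hw, zr]
  have h1 : Summable (fun n : ℕ => ‖1 / (n : ℂ) ^ w‖) := by
    simp only [term_norm w hw]; exact summ hw
  refine (norm_tsum_le_tsum_norm h1).trans ?_
  simp only [term_norm w hw]; exact le_refl _

theorem norm_inv_zeta_le (w : ℂ) (hw : 1 < w.re) : ‖(riemannZeta w)⁻¹‖ ≤ zr w.re := by
  have h1 := ArithmeticFunction.LSeries_zeta_mul_Lseries_moebius hw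
  rw [ArithmeticFunction.LSeries_zeta_eq_riemannZeta hw] at h1
  have h2 : (riemannZeta w)⁻¹ = LSeries (fun n => ((ArithmeticFunction.moebius n : ℤ) : ℂ)) w := by
    exact inv_eq_of_mul_eq_one_right h1
  rw [h2, LSeries, zr]
  have h3 : ∀ n : ℕ, ‖LSeries.term (fun n => ((ArithmeticFunction.moebius n : ℤ) : ℂ)) w n‖
      ≤ 1 / (n : ℝ) ^ w.re := by
    intro n
    rcases Nat.eq_zero_or_pos n with rfl | hn
    · have h2 : w.re ≠ 0 := by linarith
      simp [Real.zero_rpow h2]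
    · rw [LSeries.term_of_ne_zero hn.ne', norm_div, Complex.norm_natCast_cpow_of_pos hn]
      apply div_le_div_of_nonneg_right _ (Real.rpow_nonneg (Nat.cast_nonneg n) _)
      rw [Complex.norm_intCast]
      exact_mod_cast ArithmeticFunction.abs_moebius_le_one
  exact tsum_of_norm_bounded (summ hw).hasSum h3

theorem zr_anti {σ τ : ℝ} (h : 1 < σ) (h2 : σ ≤ τ) : zr τ ≤ zr σ := by
  unfold zr
  refine (summ (h.trans_le h2)).tsum_le_tsum (fun n => ?_) (summ h)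
  rcases Nat.eq_zero_or_pos n with rfl | hn
  · simp [Real.zero_rpow (show σ ≠ 0 by linarith), Real.zero_rpow (show τ ≠ 0 by linarith)]
  · apply one_div_le_one_div_of_le (Real.rpow_pos_of_pos (by exact_mod_cast hn) _)
    exact Real.rpow_le_rpow_of_exponent_le (by exact_mod_cast hn) h2

/-! ### The gamma factor -/

/-- the trivial parameter -/
def m0 : Fin 1 → ℂ := fun _ => 0

theorem m0_re (j : Fin 1) : (m0 j).re ≤ 1 / 2 := by
  unfold m0
  norm_num

theorem gaf_m0 (s : ℂ) : gaf 1 m0 s = Gammaℝ s := by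
  unfold gaf m0
  simp

/-- the real part of the logarithmic derivative is large -/
theorem re_big (K : ℝ) : ∃ Y : ℝ, 1 ≤ Y ∧ ∀ σ y : ℝ, 3 / 2 ≤ σ → Y ≤ y →
    K ≤ (gaD 1 m0 (σ + y * I)).re := by
  have gp := gaf_GP le_rfl le_rfl m0_re
  obtain ⟨S, hS⟩ : ∃ S : ℝ, S = 4 * Real.exp (2 * |K| + 10) := ⟨_, rfl⟩
  have hS0 : 0 < S := by rw [hS]; positivity
  refine ⟨max 1 (Real.exp (2 * K + 12 * S + 14)), le_max_left _ _, ?_⟩
  intro σ y hσ hy
  have hy1 : 1 ≤ y := (le_max_left _ _).trans hy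
  have hy2 : Real.exp (2 * K + 12 * S + 14) ≤ y := (le_max_right _ _).trans hy
  have hre : ((σ : ℂ) + y * I).re = σ := by simp
  rcases le_total S σ with h | h
  · refine gp.gr K _ ?_ ?_
    · rw [hre]; linarith
    · rw [hre]; rw [hS] at h; exact h
  · have h1 := gp.lipD (ρ := 1) le_rfl (s := (σ : ℂ) + y * I) (t := 3 / 2 + y * I)
      (by rw [hre]; linarith) (by simp; norm_num)
    have e1 : ((σ : ℂ) + y * I) - (3 / 2 + y * I) = ((σ - 3 / 2 : ℝ) : ℂ) := by push_cast; ring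
    rw [e1, Complex.norm_real, Real.norm_of_nonneg (by linarith)] at h1
    have h2 := (abs_le.1 ((abs_re_le_norm _).trans h1)).1
    rw [sub_re] at h2
    have h3 := (el_bd (N := 1) (μ := m0) le_rfl m0_re y).1
    have h4 : (gaD 1 m0 (3 / 2 + y * I)).re = el 1 m0 y := rfl
    have h5 : y ≤ cnd 1 m0 y := by
      unfold cnd m0
      rw [one_mul, Finset.prod_const, Finset.card_univ, Fintype.card_fin, pow_one, sub_zero,
        norm_mul, Complex.norm_I, mul_one, Complex.norm_real, Real.norm_of_nonneg (by linarith)]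
      linarith
    have h6 : 2 * K + 12 * S + 14 ≤ Real.log (cnd 1 m0 y) := by
      rw [Real.le_log_iff_exp_le (by linarith)]
      linarith
    rw [h4] at h2
    push_cast at h1 h2 h3
    have h7 : (6 : ℝ) * 1 / 1 * (σ - 3 / 2) ≤ 6 * S := by linarith
    linarith

/-- the derivative of the logarithm of the size on a horizontal line -/
theorem hor_der {y t : ℝ} (ht : 1 ≤ t) : HasDerivAt (fun t : ℝ => Real.log (‖gaf 1 m0 (t + y * I)‖ ^ 2))
    (2 * (gaD 1 m0 (t + y * I)).re) t := by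
  have gp := gaf_GP le_rfl le_rfl m0_re
  have hs : 1 ≤ ((t : ℂ) + (y : ℂ) * I).re := by simp; exact ht
  have h0 := gp.ne _ hs
  have h1 : HasDerivAt (fun u : ℝ => ((u : ℂ) + (y : ℂ) * I : ℂ)) 1 t := by
    have := (Complex.ofRealCLM.hasDerivAt (x := t)).add_const ((y : ℂ) * I)
    simpa using this
  have h2 : HasDerivAt (fun u : ℝ => gaf 1 m0 ((u : ℂ) + (y : ℂ) * I))
      ((1 : ℂ) • (gaf 1 m0 ((t : ℂ) + (y : ℂ) * I) * gaD 1 m0 ((t : ℂ) + (y : ℂ) * I))) t :=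
    HasDerivAt.scomp_of_eq t (gp.der _ hs) h1 rfl
  have h3 := h2.norm_sq
  have hne : ‖gaf 1 m0 ((t : ℂ) + (y : ℂ) * I)‖ ^ 2 ≠ 0 := pow_ne_zero _ (norm_ne_zero_iff.2 h0)
  have h4 := h3.log hne
  refine h4.congr_deriv ?_
  obtain ⟨w, hw⟩ : ∃ w : ℂ, w = gaf 1 m0 ((t : ℂ) + (y : ℂ) * I) := ⟨_, rfl⟩
  obtain ⟨d, hd⟩ : ∃ d : ℂ, d = gaD 1 m0 ((t : ℂ) + (y : ℂ) * I) := ⟨_, rfl⟩
  rw [← hw] at hne ⊢
  rw [← hd]
  rw [div_eq_iff hne, Complex.inner, smul_eq_mul, Complex.sq_norm]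
  simp only [Complex.normSq_apply, mul_re, mul_im, one_re, one_im, conj_re, conj_im]
  ring

theorem hor_grow {y a b K : ℝ} (ha : 1 ≤ a) (hab : a ≤ b)
    (h : ∀ t ∈ Icc a b, K ≤ (gaD 1 m0 (t + y * I)).re) :
    Real.exp (K * (b - a)) * ‖gaf 1 m0 (a + y * I)‖ ≤ ‖gaf 1 m0 (b + y * I)‖ := by
  have gp := gaf_GP le_rfl le_rfl m0_re
  have hpos : ∀ t : ℝ, 1 ≤ t → 0 < ‖gaf 1 m0 (t + y * I)‖ := fun t ht =>
    norm_pos_iff.2 (gp.ne _ (by simp; exact ht))
  have h2 := (convex_Icc a b).mul_sub_le_image_sub_of_le_deriv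
    (f := fun t : ℝ => Real.log (‖gaf 1 m0 (t + y * I)‖ ^ 2)) (C := 2 * K)
    (fun t ht => (hor_der (ha.trans ht.1)).continuousAt.continuousWithinAt)
    (fun t ht => (hor_der (ha.trans (interior_subset ht).1)).differentiableAt.differentiableWithinAt)
    (fun t ht => by
      rw [(hor_der (ha.trans (interior_subset ht).1)).deriv]
      have := h t (interior_subset ht)
      linarith) a (left_mem_Icc.2 hab) b (right_mem_Icc.2 hab) hab
  rw [Real.log_pow, Real.log_pow] at h2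
  push_cast at h2
  have h3 : K * (b - a) + Real.log ‖gaf 1 m0 (a + y * I)‖ ≤ Real.log ‖gaf 1 m0 (b + y * I)‖ := by
    linarith
  calc Real.exp (K * (b - a)) * ‖gaf 1 m0 (a + y * I)‖ =
        Real.exp (K * (b - a) + Real.log ‖gaf 1 m0 (a + y * I)‖) := by
        rw [Real.exp_add, Real.exp_log (hpos a ha)]
    _ ≤ Real.exp (Real.log ‖gaf 1 m0 (b + y * I)‖) := Real.exp_le_exp.2 h3
    _ = _ := Real.exp_log (hpos b (ha.trans hab))

theorem XX_fac {w : ℂ} (hw : 1 ≤ w.re) : XX w =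
    4 * ((1 / 2 + w) * (1 / 2 + w - 1)) * (gaf 1 m0 (1 / 2 + w) * riemannZeta (1 / 2 + w)) := by
  have h1 : (1 / 2 + w : ℂ) ≠ 0 := by
    intro h
    have := congrArg Complex.re h
    simp at this
    linarith
  have h2 : (1 - (1 / 2 + w) : ℂ) ≠ 0 := by
    intro h
    have := congrArg Complex.re h
    simp at this
    linarith
  rw [Pool.Agent.H24R2.JP.B1h.XX_zeta w (by linarith), gaf_m0]
  obtain ⟨s, hs⟩ : ∃ s : ℂ, s = 1 / 2 + w := ⟨_, rfl⟩
  have hw' : w = s - 1 / 2 := by rw [hs]; ring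
  rw [← hs] at h1 h2 ⊢
  rw [hw']
  field_simp
  ring

/-- **JOB BG** -/
theorem t_BG : S_BG := by
  intro a u ha ha1 hu
  obtain ⟨Z, hZ⟩ : ∃ Z : ℝ, Z = zr (3 / 2) := ⟨_, rfl⟩
  have hZ0 : 0 ≤ Z := by rw [hZ]; exact tsum_nonneg fun n => by positivity
  obtain ⟨K, hK⟩ : ∃ K : ℝ, K = Real.log (Z * Z + 1) / (2 * a) := ⟨_, rfl⟩
  obtain ⟨Y, hY1, hY⟩ := re_big K
  refine ⟨Y, fun z hz2 hzY h0 => ?_⟩
  unfold Fa at h0
  have h1 : ‖XX (z + a)‖ = ‖XX (z - a)‖ := by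
    have : XX (z + a) = -(u * XX (z - a)) := eq_neg_of_add_eq_zero_left h0
    rw [this, norm_neg, norm_mul, hu, one_mul]
  have hp : 1 ≤ (z + a).re := by simp; linarith
  have hm : 1 ≤ (z - a).re := by simp; linarith
  rw [XX_fac hp, XX_fac hm] at h1
  obtain ⟨sp, hsp⟩ : ∃ sp : ℂ, sp = 1 / 2 + (z + a) := ⟨_, rfl⟩
  obtain ⟨sm, hsm⟩ : ∃ sm : ℂ, sm = 1 / 2 + (z - a) := ⟨_, rfl⟩
  rw [← hsp, ← hsm] at h1
  have hspr : sp.re = 1 / 2 + z.re + a := by rw [hsp]; simp; ring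
  have hsmr : sm.re = 1 / 2 + z.re - a := by rw [hsm]; simp; ring
  have hspi : sp.im = z.im := by rw [hsp]; simp
  have hsmi : sm.im = z.im := by rw [hsm]; simp
  have hsp1 : 3 / 2 ≤ sp.re := by linarith
  have hsm1 : 3 / 2 ≤ sm.re := by linarith
  -- zeta
  have hz1 : ‖riemannZeta sm‖ ≤ Z := by
    rw [hZ]
    exact (norm_zeta_le sm (by linarith)).trans (zr_anti (by norm_num) hsm1)
  have hz2' : ‖(riemannZeta sp)⁻¹‖ ≤ Z := by
    rw [hZ]
    exact (norm_inv_zeta_le sp (by linarith)).trans (zr_anti (by norm_num) hsp1)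
  have hzne : riemannZeta sp ≠ 0 := riemannZeta_ne_zero_of_one_le_re (by linarith)
  have hzpos : 0 < ‖riemannZeta sp‖ := norm_pos_iff.2 hzne
  have hz3 : 1 ≤ Z * ‖riemannZeta sp‖ := by
    rw [norm_inv] at hz2'
    calc (1 : ℝ) = ‖riemannZeta sp‖⁻¹ * ‖riemannZeta sp‖ := (inv_mul_cancel₀ hzpos.ne').symm
      _ ≤ Z * ‖riemannZeta sp‖ := mul_le_mul_of_nonneg_right hz2' hzpos.le
  -- the polynomial factor
  have hsq : ∀ x y t : ℝ, 0 ≤ x → x ≤ y → ‖((x : ℂ) + t * I)‖ ≤ ‖((y : ℂ) + t * I)‖ := by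
    intro x y t hx hxy
    rw [Complex.norm_add_mul_I, Complex.norm_add_mul_I]
    exact Real.sqrt_le_sqrt (by nlinarith)
  have hpol : ‖sm * (sm - 1)‖ ≤ ‖sp * (sp - 1)‖ := by
    have f1 : sm = ((sm.re : ℝ) : ℂ) + z.im * I := by
      rw [← hsmi]; exact (Complex.re_add_im sm).symm
    have f2 : sp = ((sp.re : ℝ) : ℂ) + z.im * I := by
      rw [← hspi]; exact (Complex.re_add_im sp).symm
    have f3 : sm - 1 = ((sm.re - 1 : ℝ) : ℂ) + z.im * I := by
      nth_rewrite 1 [f1]; push_cast; ring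
    have f4 : sp - 1 = ((sp.re - 1 : ℝ) : ℂ) + z.im * I := by
      nth_rewrite 1 [f2]; push_cast; ring
    rw [norm_mul, norm_mul]
    refine mul_le_mul ?_ ?_ (norm_nonneg _) (norm_nonneg _)
    · rw [f1, f2]
      exact hsq _ _ _ (by linarith) (by linarith)
    · rw [f3, f4]
      exact hsq _ _ _ (by linarith) (by linarith)
  have hpolpos : 0 < ‖sp * (sp - 1)‖ := by
    rw [norm_pos_iff]
    refine mul_ne_zero (fun h => ?_) (fun h => ?_)
    · rw [h] at hsp1; norm_num at hsp1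
    · have := congrArg Complex.re h
      simp at this
      linarith
  -- the gamma factor
  have hgam := hor_grow (y := z.im) (a := sm.re) (b := sp.re) (K := K) (by linarith) (by linarith)
    (fun t ht => hY t z.im (by linarith [ht.1]) hzY)
  have f1 : ((sm.re : ℝ) : ℂ) + z.im * I = sm := by rw [← hsmi]; exact Complex.re_add_im sm
  have f2 : ((sp.re : ℝ) : ℂ) + z.im * I = sp := by rw [← hspi]; exact Complex.re_add_im sp
  rw [f1, f2] at hgam
  have hexp : Real.exp (K * (sp.re - sm.re)) = Z * Z + 1 := by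
    have : K * (sp.re - sm.re) = Real.log (Z * Z + 1) := by
      rw [hK, hspr, hsmr]
      field_simp
      ring
    rw [this, Real.exp_log (by positivity)]
  rw [hexp] at hgam
  have gp := gaf_GP le_rfl le_rfl m0_re
  have hgm : 0 < ‖gaf 1 m0 sm‖ := norm_pos_iff.2 (gp.ne _ (by linarith))
  have hgp : 0 < ‖gaf 1 m0 sp‖ := norm_pos_iff.2 (gp.ne _ (by linarith))
  have e4 : ∀ A B : ℂ, ‖4 * A * B‖ = 4 * ‖A‖ * ‖B‖ := fun A B => by
    rw [norm_mul, norm_mul, Complex.norm_ofNat]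
  rw [e4, e4, norm_mul (gaf 1 m0 sp), norm_mul (gaf 1 m0 sm)] at h1
  have k1 : ‖gaf 1 m0 sm‖ * ‖riemannZeta sm‖ < ‖gaf 1 m0 sp‖ * ‖riemannZeta sp‖ := by
    calc ‖gaf 1 m0 sm‖ * ‖riemannZeta sm‖ ≤ ‖gaf 1 m0 sm‖ * Z :=
          mul_le_mul_of_nonneg_left hz1 hgm.le
      _ ≤ ‖gaf 1 m0 sm‖ * (Z * (Z * ‖riemannZeta sp‖)) := by
          refine mul_le_mul_of_nonneg_left ?_ hgm.le
          exact le_mul_of_one_le_right hZ0 hz3
      _ < ((Z * Z + 1) * ‖gaf 1 m0 sm‖) * ‖riemannZeta sp‖ := by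
          have := mul_pos hgm hzpos
          nlinarith
      _ ≤ ‖gaf 1 m0 sp‖ * ‖riemannZeta sp‖ := mul_le_mul_of_nonneg_right hgam hzpos.le
  have k2 : 4 * ‖sm * (sm - 1)‖ * (‖gaf 1 m0 sm‖ * ‖riemannZeta sm‖) <
      4 * ‖sp * (sp - 1)‖ * (‖gaf 1 m0 sp‖ * ‖riemannZeta sp‖) := by
    calc 4 * ‖sm * (sm - 1)‖ * (‖gaf 1 m0 sm‖ * ‖riemannZeta sm‖) ≤
          4 * ‖sp * (sp - 1)‖ * (‖gaf 1 m0 sm‖ * ‖riemannZeta sm‖) :=
          mul_le_mul_of_nonneg_right (by linarith) (by positivity)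
      _ < _ := mul_lt_mul_of_pos_left k1 (by linarith)
  linarith

end Pool.Agent.Q224.DTG
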