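import Pool.Agent.Q55.DT.Stm

/-!
# Project DT (helper55): the counting inequality
-/

set_option autoImplicit false

namespace Pool.Agent.Q224.DT

open Finset

section
variable {V : Type} [Fintype V] [DecidableEq V]

/-- the exponent with the values of `f` outside of `T` and the value `τ` at `T` -/
noncomputable def vec (T : V) (f : V → ℕ) (τ : ℕ) : V →₀ ℕ := Finsupp.equivFunOnFinite.symm (Function.update f T τ)

lemma vec_T (T : V) (f : V → ℕ) (τ : ℕ) : vec T f τ T = τ := by
  unfold vec
  simp

lemma vec_ne {T : V} (f : V → ℕ) (τ : ℕ) {v : V} (hv : v ≠ T) : vec T f τ v = f v := by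
  unfold vec
  simp [hv]

/-- the height of `J` over `f` -/
noncomputable def hh (T : V) (J : Set (V →₀ ℕ)) (f : V → ℕ) : ℕ := sInf {τ | vec T f τ ∈ J}

/-- the height of the `k`-fold sum -/
noncomputable def HH (T : V) (J : Set (V →₀ ℕ)) (k : ℕ) (f : V → ℕ) : ℕ :=
  sInf {τ | ∃ a : Fin k → (V →₀ ℕ), (∀ i, a i ∈ J) ∧ ∑ i, a i ≤ vec T f τ}

/-- extension by zero -/
def ex (F : Finset V) (g : F → ℕ) (v : V) : ℕ := if hv : v ∈ F then g ⟨v, hv⟩ else 0

variable {T : V} {J : Set (V →₀ ℕ)} {k N : ℕ}

omit [Fintype V] [DecidableEq V] in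
lemma up (hJ : ∀ e ∈ J, ∀ e', e + e' ∈ J) {e e' : V →₀ ℕ} (he : e ∈ J) (h : e ≤ e') : e' ∈ J := by
  obtain ⟨d, rfl⟩ := exists_add_of_le h
  exact hJ e he d

lemma vec_mono (f : V → ℕ) {τ τ' : ℕ} (h : τ ≤ τ') : vec T f τ ≤ vec T f τ' := by
  intro v
  by_cases hv : v = T
  · subst hv; rw [vec_T, vec_T]; exact h
  · rw [vec_ne f τ hv, vec_ne f τ' hv]

lemma hh_mem (hN : ∀ e, e ∉ J → ∀ v, e v < N) (f : V → ℕ) : vec T f (hh T J f) ∈ J := by
  have hne : {τ | vec T f τ ∈ J}.Nonempty := by
    refine ⟨N, ?_⟩
    by_contra h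
    have := hN _ h T
    rw [vec_T] at this
    exact lt_irrefl _ this
  exact Nat.sInf_mem hne

lemma notMem_of_lt (f : V → ℕ) {τ : ℕ} (h : τ < hh T J f) : vec T f τ ∉ J := fun h' => by
  have := Nat.notMem_of_lt_sInf h
  exact this h'

lemma hh_zero (hN : ∀ e, e ∉ J → ∀ v, e v < N) (f : V → ℕ) {v : V} (hv : v ≠ T) (hf : N ≤ f v) : hh T J f = 0 := by
  have h : vec T f 0 ∈ J := by
    by_contra h
    have := hN _ h v
    rw [vec_ne f 0 hv] at this
    omega
  exact Nat.eq_zero_of_le_zero (Nat.sInf_le h)

lemma HH_nonempty (hN : ∀ e, e ∉ J → ∀ v, e v < N) (f : V → ℕ) :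
    {τ | ∃ a : Fin k → (V →₀ ℕ), (∀ i, a i ∈ J) ∧ ∑ i, a i ≤ vec T f τ}.Nonempty := by
  refine ⟨k * N, fun _ => Finsupp.single T N, fun _ => ?_, ?_⟩
  · by_contra h
    have := hN _ h T
    rw [Finsupp.single_eq_same] at this
    exact lt_irrefl _ this
  · intro v
    rw [Finset.sum_const, card_univ, Fintype.card_fin, Finsupp.smul_apply, smul_eq_mul]
    by_cases hv : v = T
    · subst hv; rw [vec_T, Finsupp.single_eq_same]
    · rw [Finsupp.single_eq_of_ne hv, mul_zero]; exact Nat.zero_le _

lemma HH_le (hN : ∀ e, e ∉ J → ∀ v, e v < N) (g : V → ℕ) (f : Fin k → V → ℕ)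
    (h : ∀ v, v ≠ T → ∑ i, f i v ≤ g v) : HH T J k g ≤ ∑ i, hh T J (f i) := by
  apply Nat.sInf_le
  refine ⟨fun i => vec T (f i) (hh T J (f i)), fun i => hh_mem hN _, ?_⟩
  intro v
  rw [Finsupp.finsetSum_apply]
  by_cases hv : v = T
  · subst hv
    rw [vec_T]
    apply le_of_eq
    apply sum_congr rfl
    intro i _
    rw [vec_T]
  · rw [vec_ne g _ hv]
    refine le_trans (le_of_eq ?_) (h v hv)
    apply sum_congr rfl
    intro i _
    rw [vec_ne _ _ hv]

/-- the indicator of `y < x` -/
def ind {k : ℕ} (z : Fin k × Fin k) : Bool := decide (z.2 < z.1)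

lemma sum_ind (hk : 1 ≤ k) (x c : Fin k) : haveI : NeZero k := ⟨by omega⟩
    ∑ s : Fin k, (if ind (x, s + c) = true then 1 else 0) = (x : ℕ) := by
  haveI : NeZero k := ⟨by omega⟩
  have h1 : ∑ s : Fin k, (if ind (x, s + c) = true then 1 else 0) = ∑ s : Fin k, (if ind (x, s) = true then 1 else 0) :=
    Equiv.sum_comp (Equiv.addRight c) (fun s : Fin k => if ind (x, s) = true then 1 else 0)
  have h2 : ∑ s : Fin k, (if ind (x, s) = true then 1 else 0) = (x : ℕ) := by
    unfold ind
    simp only [decide_eq_true_eq]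
    rw [Finset.sum_boole]
    have : (univ.filter fun s : Fin k => s < x) = Iio x := by ext s; simp
    rw [this, Fin.card_Iio]
    rfl
  exact h1.trans h2

lemma step1 (hk : 1 ≤ k) (hN : ∀ e, e ∉ J → ∀ v, e v < N) (F : Finset V) (a : F → ℕ) (ρ : F → Fin k) (c : F → Fin k) :
    haveI : NeZero k := ⟨by omega⟩
    HH T J k (ex F fun v => k * a v + ρ v) ≤
      ∑ s : Fin k, hh T J (ex F fun v => a v + if ind (ρ v, s + c v) = true then 1 else 0) := by
  haveI : NeZero k := ⟨by omega⟩
  apply HH_le hN
  intro v _
  unfold ex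
  split_ifs with hv
  · rw [sum_add_distrib, sum_ind hk, sum_const, card_univ, Fintype.card_fin, smul_eq_mul]
  · simp

lemma step2 (hk : 1 ≤ k) (hN : ∀ e, e ∉ J → ∀ v, e v < N) (F : Finset V) (a : F → ℕ) (ρ : F → Fin k) :
    k ^ F.card * HH T J k (ex F fun v => k * a v + ρ v) ≤
      k * ∑ c : F → Fin k, hh T J (ex F fun v => a v + if ind (ρ v, c v) = true then 1 else 0) := by
  haveI : NeZero k := ⟨by omega⟩
  have h1 : ∑ c : F → Fin k, HH T J k (ex F fun v => k * a v + ρ v) ≤ ∑ c : F → Fin k, ∑ s : Fin k,
      hh T J (ex F fun v => a v + if ind (ρ v, s + c v) = true then 1 else 0) :=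
    sum_le_sum fun c _ => step1 hk hN F a ρ c
  rw [sum_const, card_univ, Fintype.card_fun, Fintype.card_fin, Fintype.card_coe, smul_eq_mul, sum_comm] at h1
  refine h1.trans (le_of_eq ?_)
  have h2 : ∀ s : Fin k, ∑ c : F → Fin k, hh T J (ex F fun v => a v + if ind (ρ v, s + c v) = true then 1 else 0) =
      ∑ c : F → Fin k, hh T J (ex F fun v => a v + if ind (ρ v, c v) = true then 1 else 0) := by
    intro s
    exact Equiv.sum_comp (Equiv.addLeft (fun _ : F => s)) (fun c : F → Fin k =>
      hh T J (ex F fun v => a v + if ind (ρ v, c v) = true then 1 else 0))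
  rw [sum_congr rfl (fun s _ => h2 s), sum_const, card_univ, Fintype.card_fin, smul_eq_mul]

lemma card_ind (k : ℕ) (b : Bool) : 2 * (univ.filter fun z : Fin k × Fin k => ind z = b).card ≤ k * (k + 1) := by
  have h1 : (univ.filter fun z : Fin k × Fin k => ind z = true).card = (univ.filter fun z : Fin k × Fin k => z.1 < z.2).card := by
    apply card_bij (fun z _ => (z.2, z.1))
    · rintro ⟨x, y⟩ h
      simpa [ind] using h
    · rintro ⟨x, y⟩ _ ⟨x', y'⟩ _ h
      simp only [Prod.mk.injEq] at h
      rw [h.1, h.2]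
    · rintro ⟨x, y⟩ h
      refine ⟨(y, x), ?_, rfl⟩
      simpa [ind] using h
  have h2 : (univ.filter fun z : Fin k × Fin k => ind z = true).card +
      (univ.filter fun z : Fin k × Fin k => z.1 < z.2).card + (univ.filter fun z : Fin k × Fin k => z.1 = z.2).card = k * k := by
    have h3 : ((univ : Finset (Fin k × Fin k))).card = k * k := by
      rw [card_univ, Fintype.card_prod, Fintype.card_fin]
    rw [← h3, ← card_union_of_disjoint, ← card_union_of_disjoint]
    · congr 1
      ext z
      simp only [mem_union, mem_filter, mem_univ, true_and, ind, decide_eq_true_eq, iff_true]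
      rcases lt_trichotomy z.1 z.2 with h | h | h
      · exact Or.inl (Or.inr h)
      · exact Or.inr h
      · exact Or.inl (Or.inl h)
    · rw [disjoint_left]
      intro z hz hz'
      simp only [mem_union, mem_filter, mem_univ, true_and, ind, decide_eq_true_eq] at hz hz'
      rcases hz with h | h
      · rw [hz'] at h; exact lt_irrefl _ h
      · rw [hz'] at h; exact lt_irrefl _ h
    · rw [disjoint_left]
      intro z hz hz'
      simp only [mem_filter, mem_univ, true_and, ind, decide_eq_true_eq] at hz hz'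
      exact lt_asymm hz hz'
  have h4 : (univ.filter fun z : Fin k × Fin k => z.1 = z.2).card = k := by
    have : (univ.filter fun z : Fin k × Fin k => z.1 = z.2).card = (univ : Finset (Fin k)).card := by
      symm
      apply card_bij (fun x _ => (x, x))
      · intro x _; simp
      · intro x _ y _ h; exact (Prod.mk.inj h).1
      · rintro ⟨x, y⟩ h
        simp only [mem_filter, mem_univ, true_and] at h
        exact ⟨x, mem_univ _, by rw [h]⟩
    rw [this, card_univ, Fintype.card_fin]
  have h5 : (univ.filter fun z : Fin k × Fin k => ind z = true).card + (univ.filter fun z : Fin k × Fin k => ind z = false).card = k * k := by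
    have h3 : ((univ : Finset (Fin k × Fin k))).card = k * k := by
      rw [card_univ, Fintype.card_prod, Fintype.card_fin]
    rw [← h3, ← card_union_of_disjoint]
    · congr 1
      ext z
      simp only [mem_union, mem_filter, mem_univ, true_and, iff_true]
      cases ind z <;> simp
    · rw [disjoint_left]
      intro z hz hz'
      simp only [mem_filter, mem_univ, true_and] at hz hz'
      rw [hz] at hz'
      exact Bool.noConfusion hz'
  have e1 : k * (k + 1) = k * k + k := by ring
  cases b
  · rw [e1]; omega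
  · rw [e1]; omega

lemma step3 (hk : 1 ≤ k) (hN : ∀ e, e ∉ J → ∀ v, e v < N) (F : Finset V) (a : F → ℕ) :
    2 ^ F.card * ∑ ρ : F → Fin k, HH T J k (ex F fun v => k * a v + ρ v) ≤
      k * (k + 1) ^ F.card * ∑ ε : F → Bool, hh T J (ex F fun v => a v + if ε v = true then 1 else 0) := by
  have h1 : k ^ F.card * ∑ ρ : F → Fin k, HH T J k (ex F fun v => k * a v + ρ v) ≤
      k * ∑ ρ : F → Fin k, ∑ c : F → Fin k, hh T J (ex F fun v => a v + if ind (ρ v, c v) = true then 1 else 0) := by
    rw [mul_sum, mul_sum]
    exact sum_le_sum fun ρ _ => step2 hk hN F a ρ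
  have h2 : ∑ ρ : F → Fin k, ∑ c : F → Fin k, hh T J (ex F fun v => a v + if ind (ρ v, c v) = true then 1 else 0) =
      ∑ z : F → Fin k × Fin k, hh T J (ex F fun v => a v + if ind (z v) = true then 1 else 0) := by
    rw [← Fintype.sum_prod_type']
    exact (Equiv.sum_comp (Equiv.arrowProdEquivProdArrow F (fun _ => Fin k) (fun _ => Fin k)).symm
      (fun z : F → Fin k × Fin k => hh T J (ex F fun v => a v + if ind (z v) = true then 1 else 0)))
  have h3 : ∑ z : F → Fin k × Fin k, hh T J (ex F fun v => a v + if ind (z v) = true then 1 else 0) =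
      ∑ ε : F → Bool, (univ.filter fun z : F → Fin k × Fin k => (fun v => ind (z v)) = ε).card *
        hh T J (ex F fun v => a v + if ε v = true then 1 else 0) := by
    rw [← sum_fiberwise_of_maps_to (s := univ) (t := univ) (g := fun z : F → Fin k × Fin k => fun v => ind (z v))
      (fun z _ => mem_univ _)]
    apply sum_congr rfl
    intro ε _
    rw [← smul_eq_mul, ← sum_const]
    apply sum_congr rfl
    intro z hz
    rw [mem_filter] at hz
    rw [← hz.2]
  have h4 : ∀ ε : F → Bool, 2 ^ F.card * (univ.filter fun z : F → Fin k × Fin k => (fun v => ind (z v)) = ε).card ≤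
      (k * (k + 1)) ^ F.card := by
    intro ε
    have e1 : (univ.filter fun z : F → Fin k × Fin k => (fun v => ind (z v)) = ε) =
        Fintype.piFinset fun v => univ.filter fun z : Fin k × Fin k => ind z = ε v := by
      ext z
      rw [mem_filter, Fintype.mem_piFinset]
      simp only [mem_univ, true_and, mem_filter, funext_iff]
    rw [e1, Fintype.card_piFinset]
    have e2 : 2 ^ F.card = ∏ _v : F, 2 := by
      rw [prod_const, card_univ, Fintype.card_coe]
    have e3 : (k * (k + 1)) ^ F.card = ∏ _v : F, (k * (k + 1)) := by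
      rw [prod_const, card_univ, Fintype.card_coe]
    rw [e2, e3, ← prod_mul_distrib]
    exact prod_le_prod' fun v _ => card_ind k (ε v)
  have h5 : 2 ^ F.card * (k ^ F.card * ∑ ρ : F → Fin k, HH T J k (ex F fun v => k * a v + ρ v)) ≤
      k * (k * (k + 1)) ^ F.card * ∑ ε : F → Bool, hh T J (ex F fun v => a v + if ε v = true then 1 else 0) := by
    calc _ ≤ 2 ^ F.card * (k * ∑ ε : F → Bool, (univ.filter fun z : F → Fin k × Fin k => (fun v => ind (z v)) = ε).card *
        hh T J (ex F fun v => a v + if ε v = true then 1 else 0)) := by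
          rw [← h3, ← h2]
          exact Nat.mul_le_mul_left _ h1
      _ = k * ∑ ε : F → Bool, (2 ^ F.card * (univ.filter fun z : F → Fin k × Fin k => (fun v => ind (z v)) = ε).card) *
        hh T J (ex F fun v => a v + if ε v = true then 1 else 0) := by
          rw [mul_left_comm, mul_sum]
          congr 1
          apply sum_congr rfl
          intro ε _
          ring
      _ ≤ k * ∑ ε : F → Bool, (k * (k + 1)) ^ F.card *
        hh T J (ex F fun v => a v + if ε v = true then 1 else 0) := by
          apply Nat.mul_le_mul_left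
          apply sum_le_sum
          intro ε _
          exact Nat.mul_le_mul_right _ (h4 ε)
      _ = _ := by
          rw [← mul_sum, mul_assoc]
  have hk0 : 0 < k ^ F.card := Nat.pow_pos (by omega)
  apply Nat.le_of_mul_le_mul_left _ hk0
  calc _ = 2 ^ F.card * (k ^ F.card * ∑ ρ : F → Fin k, HH T J k (ex F fun v => k * a v + ρ v)) := by ring
    _ ≤ _ := h5
    _ = _ := by rw [mul_pow]; ring

/-- the support -/
def sp (p : V → ℕ) : Finset V := univ.filter fun v => p v ≠ 0

lemma step4 (hN : ∀ e, e ∉ J → ∀ v, e v < N) (F : Finset V) (hT : T ∉ F) (P : Finset (V → ℕ))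
    (hP : ∀ p : V → ℕ, p T = 0 → (∀ v, v ≠ T → p v < N) → p ∈ P) :
    ∑ a : F → Fin N, ∑ ε : F → Bool, hh T J (ex F fun v => (a v : ℕ) + if ε v = true then 1 else 0) ≤
      ∑ p ∈ P, if sp p ⊆ F then 2 ^ (sp p).card * hh T J p else 0 := by
  classical
  rw [← Fintype.sum_prod_type']
  set g : (F → Fin N) × (F → Bool) → (V → ℕ) := fun x => ex F fun v => (x.1 v : ℕ) + if x.2 v = true then 1 else 0 with hg
  have h0 : ∑ x : (F → Fin N) × (F → Bool), hh T J (g x) = ∑ x ∈ univ.filter (fun x => g x ∈ P), hh T J (g x) := by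
    symm
    apply sum_subset (filter_subset _ _)
    intro x _ hx
    rw [mem_filter] at hx
    have hx' : g x ∉ P := fun h => hx ⟨mem_univ _, h⟩
    have : ∃ v, v ≠ T ∧ N ≤ g x v := by
      by_contra hcon
      push Not at hcon
      apply hx'
      apply hP
      · rw [hg]
        simp only
        unfold ex
        rw [dif_neg hT]
      · exact hcon
    obtain ⟨v, hv, hv2⟩ := this
    exact hh_zero hN _ hv hv2
  show ∑ x : (F → Fin N) × (F → Bool), hh T J (g x) ≤ _
  rw [h0, ← sum_fiberwise_of_maps_to (s := univ.filter (fun x => g x ∈ P)) (t := P) (g := g) (fun x hx => (mem_filter.1 hx).2)]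
  apply sum_le_sum
  intro p _
  have h1 : ∑ x ∈ (univ.filter (fun x => g x ∈ P)).filter (fun x => g x = p), hh T J (g x) =
      ((univ.filter (fun x => g x ∈ P)).filter (fun x => g x = p)).card * hh T J p := by
    rw [← smul_eq_mul, ← sum_const]
    apply sum_congr rfl
    intro x hx
    rw [(mem_filter.1 hx).2]
  rw [h1]
  split_ifs with hsp
  · apply Nat.mul_le_mul_right
    rw [← card_powerset]
    apply card_le_card_of_injOn (fun x => univ.filter fun v : V => ∃ hv : v ∈ F, x.2 ⟨v, hv⟩ = true)
    · intro x hx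
      rw [mem_coe, mem_filter] at hx
      simp only [mem_coe, mem_powerset]
      intro v hv
      rw [mem_filter] at hv
      obtain ⟨_, hvF, hv2⟩ := hv
      unfold sp
      rw [mem_filter, ← hx.2]
      refine ⟨mem_univ _, ?_⟩
      rw [hg]
      simp only
      unfold ex
      rw [dif_pos hvF]
      simp only
      rw [if_pos hv2]
      omega
    · intro x hx y hy hxy
      rw [mem_coe, mem_filter] at hx hy
      simp only at hxy
      have e1 : x.2 = y.2 := by
        funext v
        have h2 : (v : V) ∈ (univ.filter fun v : V => ∃ hv : v ∈ F, x.2 ⟨v, hv⟩ = true) ↔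
            (v : V) ∈ (univ.filter fun v : V => ∃ hv : v ∈ F, y.2 ⟨v, hv⟩ = true) := by rw [hxy]
        simp only [mem_filter, mem_univ, true_and] at h2
        have h3 : x.2 v = true ↔ y.2 v = true := by
          constructor
          · intro h
            obtain ⟨_, h4⟩ := h2.1 ⟨v.2, h⟩
            exact h4
          · intro h
            obtain ⟨_, h4⟩ := h2.2 ⟨v.2, h⟩
            exact h4
        exact Bool.eq_iff_iff.2 h3
      have e2 : x.1 = y.1 := by
        funext v
        have h2 : g x v = g y v := by rw [hx.2, hy.2]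
        rw [hg] at h2
        simp only at h2
        unfold ex at h2
        rw [dif_pos v.2, dif_pos v.2, e1] at h2
        apply Fin.ext
        simp only [Subtype.coe_eta] at h2
        exact Nat.add_right_cancel h2
      exact Prod.ext e2 e1
  · have h2 : ((univ.filter (fun x => g x ∈ P)).filter (fun x => g x = p)) = ∅ := by
      rw [eq_empty_iff_forall_notMem]
      intro x hx
      rw [mem_filter] at hx
      apply hsp
      intro v hv
      unfold sp at hv
      rw [mem_filter, ← hx.2] at hv
      by_contra hvF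
      apply hv.2
      rw [hg]
      simp only
      unfold ex
      rw [dif_neg hvF]
    rw [h2, card_empty, zero_mul]

end

/-- **DCOMB** -/
theorem dcomb : Pool.Agent.Q55.DT.S_DComb := by
  classical
  intro V _ _ T D FF hFF hcnt J hJ hbad hfin k hk
  -- the bound of the coordinates
  obtain ⟨N, hN⟩ : ∃ N : ℕ, ∀ e, e ∉ J → ∀ v, e v < N := by
    refine ⟨(hfin.toFinset.sup fun e => univ.sup fun v => e v) + 1, fun e he v => ?_⟩
    have h1 : e v ≤ univ.sup fun v => e v := Finset.le_sup (f := fun v => e v) (mem_univ v)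
    have h2 : (univ.sup fun v => e v) ≤ hfin.toFinset.sup fun e => univ.sup fun v => e v :=
      Finset.le_sup (f := fun e : V →₀ ℕ => univ.sup fun v => e v) (hfin.mem_toFinset.2 he)
    omega
  set P : Finset (V → ℕ) := Fintype.piFinset fun v => if v = T then {0} else range N with hP
  have hPT : ∀ p ∈ P, p T = 0 := by
    intro p hp
    rw [hP, Fintype.mem_piFinset] at hp
    have := hp T
    rw [if_pos rfl, mem_singleton] at this
    exact this
  have hPmem : ∀ p : V → ℕ, p T = 0 → (∀ v, v ≠ T → p v < N) → p ∈ P := by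
    intro p h1 h2
    rw [hP, Fintype.mem_piFinset]
    intro v
    by_cases hv : v = T
    · rw [if_pos hv, hv, h1, mem_singleton]
    · rw [if_neg hv, mem_range]
      exact h2 v hv
  -- the size of the complement
  have hsum : ∑ p ∈ P, hh T J p ≤ Jᶜ.ncard := by
    rw [Set.ncard_eq_toFinset_card _ hfin]
    calc ∑ p ∈ P, hh T J p = (P.sigma fun p => range (hh T J p)).card := by
          rw [card_sigma]
          apply sum_congr rfl
          intro p _
          rw [card_range]
      _ ≤ hfin.toFinset.card := by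
          apply card_le_card_of_injOn (fun x => vec T x.1 x.2)
          · rintro ⟨p, τ⟩ hx
            rw [mem_coe, mem_sigma, mem_range] at hx
            rw [mem_coe, hfin.mem_toFinset]
            exact notMem_of_lt p hx.2
          · rintro ⟨p, τ⟩ hx ⟨p', τ'⟩ hx' h
            rw [mem_coe, mem_sigma] at hx hx'
            simp only at h hx hx'
            have e1 : τ = τ' := by
              have := congrArg (fun e : V →₀ ℕ => e T) h
              simp only [vec_T] at this
              exact this
            have e2 : p = p' := by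
              funext v
              by_cases hv : v = T
              · rw [hv, hPT p hx.1, hPT p' hx'.1]
              · have := congrArg (fun e : V →₀ ℕ => e v) h
                simp only [vec_ne _ _ hv] at this
                exact this
            rw [e1, e2]
  -- the cover
  set E : Set (V →₀ ℕ) := {e : V →₀ ℕ | (∃ F ∈ FF, e.support ⊆ insert T F) ∧
      ¬ ∃ a : Fin k → (V →₀ ℕ), (∀ i, a i ∈ J) ∧ ∑ i, a i ≤ e} with hE
  have hcov : E ⊆ ((FF.biUnion fun F => (univ : Finset (F → Fin N)).biUnion fun a => (univ : Finset (F → Fin k)).biUnion fun ρ =>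
      (range (HH T J k (ex F fun v => k * (a v : ℕ) + ρ v))).image fun τ => vec T (ex F fun v => k * (a v : ℕ) + ρ v) τ :
      Finset (V →₀ ℕ)) : Set (V →₀ ℕ)) := by
    rintro e ⟨⟨F, hF, hsup⟩, hno⟩
    have hTF := (hFF F hF).2
    have hlt : ∀ v ∈ F, e v < k * N := by
      intro v hv
      by_contra hcon
      rw [not_lt] at hcon
      apply hno
      refine ⟨fun _ => Finsupp.single v N, fun _ => ?_, ?_⟩
      · by_contra h
        have := hN _ h v
        rw [Finsupp.single_eq_same] at this
        exact lt_irrefl _ this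
      · intro u
        rw [Finset.sum_const, card_univ, Fintype.card_fin, Finsupp.smul_apply, smul_eq_mul]
        by_cases hu : u = v
        · subst hu; rw [Finsupp.single_eq_same]; exact hcon
        · rw [Finsupp.single_eq_of_ne hu, mul_zero]; exact Nat.zero_le _
    have hk0 : 0 < k := by omega
    set a : F → Fin N := fun v => ⟨e v / k, by
      rw [Nat.div_lt_iff_lt_mul hk0, mul_comm]
      exact hlt v v.2⟩ with ha
    set ρ : F → Fin k := fun v => ⟨e v % k, Nat.mod_lt _ hk0⟩ with hρ
    have hvec : vec T (ex F fun v => k * (a v : ℕ) + ρ v) (e T) = e := by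
      ext v
      by_cases hv : v = T
      · rw [hv, vec_T]
      · rw [vec_ne _ _ hv]
        unfold ex
        split_ifs with hvF
        · show k * (e v / k) + e v % k = e v
          exact Nat.div_add_mod _ _
        · symm
          by_contra hne
          have h1 := hsup (Finsupp.mem_support_iff.2 hne)
          rw [mem_insert] at h1
          rcases h1 with h1 | h1
          · exact hv h1
          · exact hvF h1
    rw [mem_coe, mem_biUnion]
    refine ⟨F, hF, ?_⟩
    rw [mem_biUnion]
    refine ⟨a, mem_univ _, ?_⟩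
    rw [mem_biUnion]
    refine ⟨ρ, mem_univ _, ?_⟩
    rw [mem_image]
    refine ⟨e T, ?_, hvec⟩
    rw [mem_range]
    by_contra hcon
    rw [not_lt] at hcon
    apply hno
    obtain ⟨b, hb1, hb2⟩ := Nat.sInf_mem (HH_nonempty (T := T) (J := J) (k := k) hN (ex F fun v => k * (a v : ℕ) + ρ v))
    refine ⟨b, hb1, ?_⟩
    rw [← hvec]
    exact hb2.trans (vec_mono _ hcon)
  have hcard : E.ncard ≤ ∑ F ∈ FF, ∑ a : F → Fin N, ∑ ρ : F → Fin k, HH T J k (ex F fun v => k * (a v : ℕ) + ρ v) := by
    refine (Set.ncard_le_ncard hcov (Finset.finite_toSet _)).trans ?_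
    rw [Set.ncard_coe_finset]
    refine card_biUnion_le.trans (sum_le_sum fun F _ => ?_)
    refine card_biUnion_le.trans (sum_le_sum fun a _ => ?_)
    refine card_biUnion_le.trans (sum_le_sum fun ρ _ => ?_)
    refine card_image_le.trans (le_of_eq (card_range _))
  -- conclusion
  have h2D : 0 < 2 ^ D := Nat.pow_pos (by norm_num)
  apply Nat.le_of_mul_le_mul_left _ h2D
  calc 2 ^ D * E.ncard ≤ 2 ^ D * ∑ F ∈ FF, ∑ a : F → Fin N, ∑ ρ : F → Fin k, HH T J k (ex F fun v => k * (a v : ℕ) + ρ v) :=
        Nat.mul_le_mul_left _ hcard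
    _ = ∑ F ∈ FF, ∑ a : F → Fin N, 2 ^ D * ∑ ρ : F → Fin k, HH T J k (ex F fun v => k * (a v : ℕ) + ρ v) := by
        rw [mul_sum]
        apply sum_congr rfl
        intro F _
        rw [mul_sum]
    _ ≤ ∑ F ∈ FF, ∑ a : F → Fin N, k * (k + 1) ^ D * ∑ ε : F → Bool, hh T J (ex F fun v => (a v : ℕ) + if ε v = true then 1 else 0) := by
        apply sum_le_sum
        intro F hF
        apply sum_le_sum
        intro a _
        have := step3 (T := T) (J := J) hk hN F (fun v => (a v : ℕ))
        rw [(hFF F hF).1] at this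
        exact this
    _ = k * (k + 1) ^ D * ∑ F ∈ FF, ∑ a : F → Fin N, ∑ ε : F → Bool, hh T J (ex F fun v => (a v : ℕ) + if ε v = true then 1 else 0) := by
        rw [mul_sum]
        apply sum_congr rfl
        intro F _
        rw [mul_sum]
    _ ≤ k * (k + 1) ^ D * ∑ F ∈ FF, ∑ p ∈ P, (if sp p ⊆ F then 2 ^ (sp p).card * hh T J p else 0) := by
        apply Nat.mul_le_mul_left
        apply sum_le_sum
        intro F hF
        exact step4 hN F (hFF F hF).2 P hPmem
    _ = k * (k + 1) ^ D * ∑ p ∈ P, ((FF.filter (sp p ⊆ ·)).card * 2 ^ (sp p).card) * hh T J p := by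
        rw [sum_comm]
        congr 1
        apply sum_congr rfl
        intro p _
        rw [← sum_filter, sum_const, smul_eq_mul, mul_assoc]
    _ ≤ k * (k + 1) ^ D * ∑ p ∈ P, 2 ^ D * hh T J p := by
        apply Nat.mul_le_mul_left
        apply sum_le_sum
        intro p hp
        apply Nat.mul_le_mul_right
        apply hcnt
        unfold sp
        rw [mem_filter]
        rintro ⟨_, h⟩
        exact h (hPT p hp)
    _ ≤ k * (k + 1) ^ D * (2 ^ D * Jᶜ.ncard) := by
        rw [← mul_sum]
        exact Nat.mul_le_mul_left _ (Nat.mul_le_mul_left _ hsum)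
    _ = _ := by ring

end Pool.Agent.Q224.DT
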