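import Pool.Agent.Q55.DT.Stm

/-!
# Project DT (helper55): the growth of the length of `A / M ^ k`
-/

set_option autoImplicit false

namespace Pool.Agent.Q224.DT

open Module Pool.Agent.Q55.DT

variable {A : Type} [CommRing A]

/-- multiplication by `f` from `A / I` to `A / J` -/
lemma len_step (I J : Ideal A) (f : A) (h : ∀ x ∈ I, f * x ∈ J) :
    Module.length A (A ⧸ J) ≤ Module.length A (A ⧸ I) + Module.length A (A ⧸ (J ⊔ Ideal.span {f})) := by
  -- the map `A / I → A / J`
  let m : A →ₗ[A] (A ⧸ J) := (Submodule.mkQ J).comp (LinearMap.mulLeft A f)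
  have hm : I ≤ LinearMap.ker m := by
    intro x hx
    rw [LinearMap.mem_ker]
    show Submodule.mkQ J (f * x) = 0
    rw [Submodule.mkQ_apply, Submodule.Quotient.mk_eq_zero]
    exact h x hx
  let g : (A ⧸ I) →ₗ[A] (A ⧸ J) := Submodule.liftQ I m hm
  have hJ : J ≤ J ⊔ Ideal.span {f} := le_sup_left
  let p : (A ⧸ J) →ₗ[A] (A ⧸ (J ⊔ Ideal.span {f})) := Submodule.factor hJ
  have hp : Function.Surjective p := Submodule.factor_surjective hJ
  have hex : Function.Exact (LinearMap.range g).subtype p := by
    rw [LinearMap.exact_iff, Submodule.range_subtype]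
    ext x
    obtain ⟨a, rfl⟩ := Submodule.Quotient.mk_surjective J x
    rw [LinearMap.mem_ker, LinearMap.mem_range]
    show p (Submodule.Quotient.mk a) = 0 ↔ _
    rw [show p (Submodule.Quotient.mk a) = Submodule.Quotient.mk a from rfl, Submodule.Quotient.mk_eq_zero]
    constructor
    · intro ha
      rw [Submodule.mem_sup] at ha
      obtain ⟨y, hy, z, hz, rfl⟩ := ha
      rw [Ideal.mem_span_singleton'] at hz
      obtain ⟨b, rfl⟩ := hz
      refine ⟨Submodule.Quotient.mk b, ?_⟩
      show Submodule.Quotient.mk (f * b) = _
      rw [Submodule.Quotient.eq]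
      have : f * b - (y + b * f) = -y := by ring
      rw [this]
      exact neg_mem hy
    · rintro ⟨y, hy⟩
      obtain ⟨b, rfl⟩ := Submodule.Quotient.mk_surjective I y
      have h1 : (Submodule.Quotient.mk (f * b) : A ⧸ J) = Submodule.Quotient.mk a := hy
      rw [Submodule.Quotient.eq] at h1
      have : a = (b * f) - (f * b - a) := by ring
      rw [this]
      exact sub_mem (Ideal.mem_sup_right (Ideal.mul_mem_left _ _ (Ideal.mem_span_singleton_self f))) (Ideal.mem_sup_left h1)
  have h1 := Module.length_eq_add_of_exact (LinearMap.range g).subtype p (Submodule.injective_subtype _) hp hex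
  rw [h1]
  apply add_le_add_left
  exact Module.length_le_of_surjective (LinearMap.rangeRestrict g) (LinearMap.surjective_rangeRestrict g)

lemma grow (S : Finset A) : ∀ (J : Ideal A) (k : ℕ),
    Module.length A (A ⧸ (J ⊔ (Ideal.span (S : Set A)) ^ k)) ≤
      Module.length A (A ⧸ (J ⊔ Ideal.span (S : Set A))) * ((k ^ S.card : ℕ) : ℕ∞) := by
  classical
  induction S using Finset.induction_on with
  | empty =>
    intro J k
    rw [Finset.coe_empty, Ideal.span_empty, sup_bot_eq, Finset.card_empty, pow_zero, Nat.cast_one, mul_one]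
    exact Module.length_le_of_surjective (Submodule.factor (show J ≤ J ⊔ (⊥ : Ideal A) ^ k from le_sup_left))
      (Submodule.factor_surjective _)
  | insert f S hf ih =>
    intro J k
    rw [Finset.card_insert_of_notMem hf]
    set q := Ideal.span ((insert f S : Finset A) : Set A) with hq
    set q' := Ideal.span (S : Set A) with hq'
    have hqq : q = Ideal.span {f} ⊔ q' := by
      rw [hq, Finset.coe_insert, Ideal.span_insert]
    have hfq : f ∈ q := Ideal.subset_span (by simp)
    set C := Module.length A (A ⧸ (J ⊔ q)) with hC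
    have key : ∀ m : ℕ, Module.length A (A ⧸ ((J ⊔ q ^ m) ⊔ Ideal.span {f})) ≤ C * ((m ^ S.card : ℕ) : ℕ∞) := by
      intro m
      have h1 := ih (J ⊔ Ideal.span {f}) m
      have e1 : J ⊔ Ideal.span {f} ⊔ q' = J ⊔ q := by rw [hqq, sup_assoc]
      rw [e1, ← hC] at h1
      have e2 : (J ⊔ Ideal.span {f} ⊔ q' ^ m) ≤ (J ⊔ q ^ m) ⊔ Ideal.span {f} := by
        refine sup_le (sup_le (le_sup_left.trans le_sup_left) le_sup_right) ?_
        refine le_trans (Ideal.pow_right_mono ?_ m) (le_sup_right.trans le_sup_left)
        rw [hqq]
        exact le_sup_right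
      exact (Module.length_le_of_surjective (Submodule.factor e2) (Submodule.factor_surjective _)).trans h1
    have main : ∀ m : ℕ, Module.length A (A ⧸ (J ⊔ q ^ m)) ≤ C * ((m * k ^ S.card : ℕ) : ℕ∞) ∨ k < m := by
      intro m
      induction m with
      | zero =>
        left
        rw [pow_zero, Ideal.one_eq_top, sup_top_eq]
        rw [Module.length_eq_zero_iff.2]
        · exact bot_le
        · exact Submodule.Quotient.subsingleton_iff.2 rfl
      | succ m ihm =>
        rcases ihm with ihm | ihm
        · by_cases hk : m + 1 ≤ k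
          · left
            have h2 := len_step (J ⊔ q ^ m) (J ⊔ q ^ (m + 1)) f (by
              intro x hx
              rw [Submodule.mem_sup] at hx
              obtain ⟨y, hy, z, hz, rfl⟩ := hx
              rw [mul_add]
              apply add_mem
              · exact Ideal.mem_sup_left (Ideal.mul_mem_left _ _ hy)
              · apply Ideal.mem_sup_right
                rw [pow_succ, mul_comm f z]
                exact Ideal.mul_mem_mul hz hfq)
            refine h2.trans ((add_le_add ihm (key (m + 1))).trans ?_)
            rw [← mul_add, ← Nat.cast_add]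
            apply mul_le_mul_right
            have : (m + 1) ^ S.card ≤ k ^ S.card := Nat.pow_le_pow_left hk _
            have h3 : m * k ^ S.card + (m + 1) ^ S.card ≤ (m + 1) * k ^ S.card := by
              rw [add_mul, one_mul]
              omega
            exact_mod_cast h3
          · right; omega
        · right; omega
    rcases main k with h | h
    · rw [pow_succ, mul_comm (k ^ S.card) k]
      exact h
    · exact absurd h (lt_irrefl _)

/-- **GROWTH** -/
theorem growth : S_Growth := by
  intro A _ _ _ h hh
  obtain ⟨S, hS, hcard⟩ := Ideal.exists_finset_card_eq_height_of_isNoetherianRing (IsLocalRing.maximalIdeal A)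
  have hc : S.card = h := by
    have h1 := IsLocalRing.maximalIdeal_height_eq_ringKrullDim (R := A)
    rw [hh, ← hcard] at h1
    exact_mod_cast h1
  have hart := IsLocalRing.quotient_artinian_of_mem_minimalPrimes_of_isLocalRing (Ideal.span (S : Set A)) hS
  have hart2 : IsArtinian A (A ⧸ Ideal.span (S : Set A)) := by
    have : Function.Surjective (algebraMap A (A ⧸ Ideal.span (S : Set A))) := Ideal.Quotient.mk_surjective
    exact isArtinian_of_surjective_algebraMap this
  have hfin : Module.length A (A ⧸ Ideal.span (S : Set A)) ≠ ⊤ := Module.length_ne_top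
  obtain ⟨c, hc'⟩ := ENat.ne_top_iff_exists.1 hfin
  refine ⟨c, fun k _ => ?_⟩
  have hle : (⊥ : Ideal A) ⊔ (Ideal.span (S : Set A)) ^ k ≤ IsLocalRing.maximalIdeal A ^ k := by
    rw [bot_sup_eq]
    exact Ideal.pow_right_mono hS.1.2 k
  refine (Module.length_le_of_surjective (Submodule.factor hle) (Submodule.factor_surjective _)).trans ?_
  refine (grow S ⊥ k).trans ?_
  rw [bot_sup_eq, ← hc', hc]
  exact le_of_eq (by push_cast; rfl)

end Pool.Agent.Q224.DT
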