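import Pool.Agent.Q260.DT.Stm2
import Pool.Agent.Q260.DS.AllP

set_option autoImplicit false

/-!
# Project DT (helper260), job RI: every function of the class `WP` (by helper224)
-/

namespace Pool.Agent.Q224.DTR

open Complex Filter Topology Metric Set MeasureTheory
open Pool.Agent.Q260.DT
open Pool.Agent.Q260.DS (Sys gp gg)
open Pool.Agent.W169.HF H353.E H353.F Q240.GS Q240.OW
open scoped ComplexConjugate

/-! ### The digamma function on horizontal lines -/

lemma sum_min {ε : ℝ} (hε : 0 < ε) : ∃ Y : ℝ, ∀ y : ℝ, Y ≤ y →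
    ∑' n : ℕ, min (1 / ((n : ℝ) + 1) ^ 2) (1 / y ^ 2) ≤ ε := by
  have h : Tendsto (fun y : ℝ => ∑' n : ℕ, min (1 / ((n : ℝ) + 1) ^ 2) (1 / y ^ 2)) atTop
      (𝓝 (∑' _ : ℕ, (0 : ℝ))) := by
    refine tendsto_tsum_of_dominated_convergence (bound := fun n : ℕ => 1 / ((n : ℝ) + 1) ^ 2)
      H370.DG.summable_inv_sq (fun n => ?_) (Eventually.of_forall fun y n => ?_)
    · have h1 : Tendsto (fun y : ℝ => 1 / y ^ 2) atTop (𝓝 0) := by
        simpa using tendsto_pow_neg_atTop (𝕜 := ℝ) (n := 2) (by norm_num)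
      have h2 : Tendsto (fun y : ℝ => min (1 / ((n : ℝ) + 1) ^ 2) (1 / y ^ 2)) atTop
          (𝓝 (min (1 / ((n : ℝ) + 1) ^ 2) 0)) := tendsto_const_nhds.min h1
      rwa [min_eq_right (by positivity)] at h2
    · rw [Real.norm_eq_abs, abs_of_nonneg (le_min (by positivity) (by positivity))]
      exact min_le_left _ _
  rw [tsum_zero] at h
  have h3 : ∀ᶠ y : ℝ in atTop, ∑' n : ℕ, min (1 / ((n : ℝ) + 1) ^ 2) (1 / y ^ 2) ≤ ε := by
    filter_upwards [h.eventually (gt_mem_nhds hε)] with y hy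
    exact hy.le
  exact eventually_atTop.1 h3

lemma arg_big {R η : ℝ} (hR : 0 ≤ R) (hη : 0 < η) (hη1 : η ≤ 1) :
    ∃ Y : ℝ, 0 < Y ∧ ∀ w : ℂ, 0 ≤ w.re → w.re ≤ R → Y ≤ w.im → Real.pi / 2 - η ≤ arg w := by
  have hπ := Real.pi_gt_three
  obtain ⟨u, hu⟩ : ∃ u : ℝ, u = Real.sin (Real.pi / 2 - η) := ⟨_, rfl⟩
  have hu1 : u < 1 := by
    rw [hu, ← Real.sin_pi_div_two]
    exact Real.sin_lt_sin_of_lt_of_le_pi_div_two (by linarith) le_rfl (by linarith)
  have hu0 : 0 < u := by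
    rw [hu]
    exact Real.sin_pos_of_pos_of_lt_pi (by linarith) (by linarith)
  have h3 : 0 < 1 - u := by linarith
  refine ⟨(R + 1) * u / (1 - u), by positivity, ?_⟩
  intro w h0 h1 h2
  have hY : 0 < w.im := lt_of_lt_of_le (by positivity) h2
  rw [Complex.arg_of_re_nonneg h0, Real.le_arcsin_iff_sin_le' ⟨by linarith, by linarith⟩, ← hu]
  have hn : 0 < ‖w‖ := by
    have := abs_im_le_norm w
    rw [abs_of_pos hY] at this
    linarith
  rw [le_div_iff₀ hn]
  have h4 : ‖w‖ ≤ R + 1 + w.im := by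
    refine (norm_le_abs_re_add_abs_im w).trans ?_
    rw [abs_of_nonneg h0, abs_of_pos hY]
    linarith
  rw [div_le_iff₀ h3] at h2
  calc u * ‖w‖ ≤ u * (R + 1 + w.im) := by gcongr
    _ ≤ w.im := by linarith

lemma im_inv_le {w : ℂ} (hw : 0 < w.im) : |(1 / w).im| ≤ 1 / w.im := by
  refine (abs_im_le_norm _).trans ?_
  rw [norm_div, norm_one]
  refine one_div_le_one_div_of_le hw ?_
  have := abs_im_le_norm w
  rw [abs_of_pos hw] at this
  exact this

lemma im_psi {R η : ℝ} (hR : 0 ≤ R) (hη : 0 < η) : ∃ Y : ℝ, 0 < Y ∧ ∀ w : ℂ, 0 < w.re → w.re ≤ R →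
    Y ≤ w.im → |(logDeriv Gamma w).im - Real.pi / 2| ≤ η := by
  obtain ⟨δ, hδ⟩ : ∃ δ : ℝ, δ = min η 1 / 4 := ⟨_, rfl⟩
  have hδ0 : 0 < δ := by rw [hδ]; have := lt_min hη one_pos; linarith
  have hδ1 : δ ≤ 1 := by rw [hδ]; have := min_le_right η 1; linarith
  have hδη : 4 * δ ≤ η := by rw [hδ]; have := min_le_left η 1; linarith
  obtain ⟨Y1, h1⟩ := sum_min hδ0
  obtain ⟨Y2, hY2, h2⟩ := arg_big (show 0 ≤ R + 2 by linarith) hδ0 hδ1
  refine ⟨max (max Y1 Y2) (1 / δ), lt_max_of_lt_left (lt_max_of_lt_right hY2), ?_⟩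
  intro w hw hw2 hY
  have hYa : Y1 ≤ w.im := ((le_max_left _ _).trans (le_max_left _ _)).trans hY
  have hYb : Y2 ≤ w.im := ((le_max_right _ _).trans (le_max_left _ _)).trans hY
  have hYc : 1 / δ ≤ w.im := (le_max_right _ _).trans hY
  have hw0 : 0 < w.im := lt_of_lt_of_le hY2 hYb
  have ha := h2 (w + 2) (by simp; linarith) (by simp; linarith) (by
    simp only [add_im, im_ofNat, add_zero]
    exact hYb)
  have ha' : arg (w + 2) ≤ Real.pi / 2 := by
    rw [Complex.arg_le_pi_div_two_iff]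
    left
    simp
    linarith
  have hs := h1 w.im hYa
  have hS : Summable (fun n : ℕ => min (1 / ((n : ℝ) + 1) ^ 2) (1 / w.im ^ 2)) :=
    Summable.of_nonneg_of_le (fun n => le_min (by positivity) (by positivity))
      (fun n => min_le_left _ _) H370.DG.summable_inv_sq
  have he : ‖∑' n, H370.DG.er n w‖ ≤ δ :=
    (tsum_of_norm_bounded hS.hasSum fun n => Pool.Agent.Q144.DJ.er_min n hw hw0).trans hs
  have he2 := abs_le.1 ((abs_im_le_norm (∑' n, H370.DG.er n w)).trans he)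
  have hinv : 1 / w.im ≤ δ := by
    rw [div_le_iff₀ hw0]
    rw [div_le_iff₀ hδ0] at hYc
    linarith
  have e1 := abs_le.1 ((im_inv_le hw0).trans hinv)
  have e2 := abs_le.1 ((im_inv_le (w := w + 1) (by simpa using hw0)).trans (by simpa using hinv))
  rw [H370.DG.logDeriv_Gamma' hw, add_im, sub_im, sub_im, Complex.log_im, abs_le]
  constructor <;> linarith [he2.1, he2.2, e1.1, e1.2, e2.1, e2.2]

lemma logDeriv_Gamma_conj (w : ℂ) : logDeriv Gamma (conj w) = conj (logDeriv Gamma w) := by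
  have h : (conj ∘ Gamma ∘ conj : ℂ → ℂ) = Gamma := by
    funext z
    simp [Complex.Gamma_conj]
  have h1 := congrFun (deriv_conj_conj (𝕜 := ℂ) (f := Gamma)) (conj w)
  rw [h] at h1
  rw [logDeriv_apply, logDeriv_apply, map_div₀, Complex.Gamma_conj, h1]
  simp

variable {m : ℕ}

lemma half_im (z : ℂ) : (z / 2).im = z.im / 2 := by
  rw [show (2 : ℂ) = ((2 : ℝ) : ℂ) by norm_num, Complex.div_ofReal_im]

lemma half_re (z : ℂ) : (z / 2).re = z.re / 2 := by
  rw [show (2 : ℂ) = ((2 : ℝ) : ℂ) by norm_num, Complex.div_ofReal_re]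

/-- the imaginary part of the logarithmic derivative of the gamma factor -/
lemma gaD_lim (hm : 1 ≤ m) (μ : Fin m → ℂ) (hμ : ∀ j, (μ j).re ≤ 1 / 2) {η : ℝ} (hη : 0 < η) :
    ∃ Y : ℝ, 0 < Y ∧ ∀ (N : ℝ) (y : ℝ), Y ≤ y →
      |(gaD N μ (3 / 2 + y * I)).im - Real.pi * m / 4| ≤ η ∧
      |(gaD N μ (3 / 2 + ((-y : ℝ) : ℂ) * I)).im + Real.pi * m / 4| ≤ η := by
  have hm' : (1 : ℝ) ≤ m := by exact_mod_cast hm
  obtain ⟨M, hM0, hM⟩ : ∃ M : ℝ, 0 ≤ M ∧ ∀ j, ‖μ j‖ ≤ M :=
    ⟨∑ j, ‖μ j‖, Finset.sum_nonneg fun _ _ => norm_nonneg _,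
      fun j => Finset.single_le_sum (f := fun j => ‖μ j‖) (fun _ _ => norm_nonneg _) (Finset.mem_univ j)⟩
  obtain ⟨Y, hY, H⟩ := im_psi (R := (3 / 2 + M) / 2) (by positivity) (show 0 < 2 * η / m by positivity)
  refine ⟨2 * Y + M, by positivity, ?_⟩
  intro N y hy
  have key : ∀ (t : ℝ) (σ : ℝ), (∀ j, |(logDeriv Gamma (((3 / 2 + (t : ℂ) * I) - μ j) / 2)).im -
      σ * (Real.pi / 2)| ≤ 2 * η / m) →
      |(gaD N μ (3 / 2 + t * I)).im - σ * (Real.pi * m / 4)| ≤ η := by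
    intro t σ h
    have e0 : (gaD N μ (3 / 2 + t * I)).im - σ * (Real.pi * m / 4) =
        ∑ j, ((logDeriv Gamma (((3 / 2 + (t : ℂ) * I) - μ j) / 2)).im - σ * (Real.pi / 2)) / 2 := by
      unfold gaD
      rw [add_im, ofReal_im, zero_add, im_sum]
      rw [← Finset.sum_div, Finset.sum_sub_distrib, Finset.sum_const, Finset.card_univ,
        Fintype.card_fin, nsmul_eq_mul, sub_div, Finset.sum_div]
      congr 1
      · refine Finset.sum_congr rfl fun j _ => ?_
        rw [add_im, ofReal_im, zero_add, half_im]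
      · ring
    rw [e0]
    refine (Finset.abs_sum_le_sum_abs _ _).trans ?_
    have h2 : ∀ j ∈ (Finset.univ : Finset (Fin m)),
        |((logDeriv Gamma (((3 / 2 + (t : ℂ) * I) - μ j) / 2)).im - σ * (Real.pi / 2)) / 2| ≤ η / m := by
      intro j _
      rw [abs_div, abs_two]
      have := h j
      have e : η / m = (2 * η / m) / 2 := by ring
      rw [e]
      linarith
    refine (Finset.sum_le_sum h2).trans (le_of_eq ?_)
    rw [Finset.sum_const, Finset.card_univ, Fintype.card_fin, nsmul_eq_mul]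
    field_simp
  have hreim : ∀ (t : ℝ) (j : Fin m), ((3 / 2 + (t : ℂ) * I - μ j) / 2).re = (3 / 2 - (μ j).re) / 2 ∧
      ((3 / 2 + (t : ℂ) * I - μ j) / 2).im = (t - (μ j).im) / 2 := by
    intro t j
    rw [half_re, half_im]
    simp
  have hb : ∀ j, -M ≤ (μ j).re ∧ |(μ j).im| ≤ M := fun j =>
    ⟨(abs_le.1 ((abs_re_le_norm (μ j)).trans (hM j))).1, (abs_im_le_norm (μ j)).trans (hM j)⟩
  constructor
  · have h1 := key y 1 (fun j => by
      obtain ⟨r1, r2⟩ := hreim y j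
      have h3 := hb j
      have h4 := hμ j
      rw [one_mul]
      refine H _ (by rw [r1]; linarith) (by rw [r1]; linarith [h3.1]) ?_
      rw [r2]
      linarith [(abs_le.1 h3.2).2])
    rw [one_mul] at h1
    exact h1
  · have h1 := key (-y) (-1) (fun j => by
      obtain ⟨r1, r2⟩ := hreim (-y) j
      have h3 := hb j
      have h4 := hμ j
      have h5 := H (conj ((3 / 2 + ((-y : ℝ) : ℂ) * I - μ j) / 2)) (by rw [conj_re, r1]; linarith)
        (by rw [conj_re, r1]; linarith [h3.1])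
        (by rw [conj_im, r2]; linarith [(abs_le.1 h3.2).1])
      rw [logDeriv_Gamma_conj, conj_im] at h5
      have e : (logDeriv Gamma ((3 / 2 + ((-y : ℝ) : ℂ) * I - μ j) / 2)).im - -1 * (Real.pi / 2) =
          -(-(logDeriv Gamma ((3 / 2 + ((-y : ℝ) : ℂ) * I - μ j) / 2)).im - Real.pi / 2) := by ring
      rw [e, abs_neg]
      exact h5)
    have e : (gaD N μ (3 / 2 + ((-y : ℝ) : ℂ) * I)).im + Real.pi * m / 4 =
      (gaD N μ (3 / 2 + ((-y : ℝ) : ℂ) * I)).im - -1 * (Real.pi * m / 4) := by ring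
    rw [e]
    exact h1

/-- piecewise estimate -/
lemma pieces {h : ℝ → ℝ} {Y η K : ℝ} (hY : 0 ≤ Y) (hη : 0 ≤ η) (hK : 0 ≤ K)
    (h1 : ∀ a b, a ≤ b → b ≤ -Y → |h b - h a| ≤ η * (b - a))
    (h2 : ∀ a b, -Y ≤ a → a ≤ b → b ≤ Y → |h b - h a| ≤ K)
    (h3 : ∀ a b, Y ≤ a → a ≤ b → |h b - h a| ≤ η * (b - a)) (a b : ℝ) (hab : a ≤ b) :
    |h b - h a| ≤ η * (b - a) + K := by
  have hnn : 0 ≤ η * (b - a) := mul_nonneg hη (by linarith)
  rcases le_total b (-Y) with c1 | c1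
  · linarith [h1 a b hab c1]
  rcases le_total Y a with c2 | c2
  · linarith [h3 a b c2 hab]
  rcases le_total a (-Y) with c3 | c3
  · rcases le_total b Y with c4 | c4
    · have e1 := h1 a (-Y) c3 le_rfl
      have e2 := h2 (-Y) b le_rfl c1 c4
      have e3 := abs_sub_le (h b) (h (-Y)) (h a)
      have e4 : η * (-Y - a) ≤ η * (b - a) := mul_le_mul_of_nonneg_left (by linarith) hη
      linarith
    · have e1 := h1 a (-Y) c3 le_rfl
      have e2 := h2 (-Y) Y le_rfl (by linarith) le_rfl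
      have e5 := h3 Y b le_rfl c4
      have e3 := abs_sub_le (h b) (h Y) (h a)
      have e6 := abs_sub_le (h Y) (h (-Y)) (h a)
      have e4 : η * (-Y - a) + η * (b - Y) ≤ η * (b - a) := by
        rw [← mul_add]
        exact mul_le_mul_of_nonneg_left (by linarith) hη
      linarith
  · rcases le_total b Y with c4 | c4
    · linarith [h2 a b c3 hab c4]
    · have e2 := h2 a Y c3 c2 le_rfl
      have e5 := h3 Y b le_rfl c4
      have e3 := abs_sub_le (h b) (h Y) (h a)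
      have e4 : η * (b - Y) ≤ η * (b - a) := mul_le_mul_of_nonneg_left (by linarith) hη
      linarith

/-- the gamma factor on a vertical line -/
lemma gaf_rate (hm : 1 ≤ m) {N : ℝ} (hN : 1 ≤ N) (μ : Fin m → ℂ) (hμ : ∀ j, (μ j).re ≤ 1 / 2)
    {η : ℝ} (hη : 0 < η) : ∃ K : ℝ, 0 ≤ K ∧ ∀ a b : ℝ, a ≤ b →
      |(Real.log ‖gaf N μ (3 / 2 + b * I)‖ + Real.pi * m / 4 * |b|) -
        (Real.log ‖gaf N μ (3 / 2 + a * I)‖ + Real.pi * m / 4 * |a|)| ≤ η * (b - a) + K := by
  obtain ⟨Y, hY, H⟩ := gaD_lim hm μ hμ hη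
  have hm' : (1 : ℝ) ≤ m := by exact_mod_cast hm
  have hπ := Real.pi_pos
  obtain ⟨ϑ, hϑ⟩ : ∃ ϑ : ℝ, ϑ = Real.pi * m / 4 := ⟨_, rfl⟩
  have hϑ0 : 0 < ϑ := by rw [hϑ]; positivity
  have gp := gaf_GP hm hN hμ
  have hall : ∀ t : ℝ, |(gaD N μ (3 / 2 + t * I)).im| ≤ 6 * m := fun t =>
    gp.im _ (by simp; norm_num)
  -- mean value
  have mv : ∀ (a b c1 c2 : ℝ), a ≤ b → (∀ t ∈ Icc a b, c1 ≤ (gaD N μ (3 / 2 + t * I)).im ∧
      (gaD N μ (3 / 2 + t * I)).im ≤ c2) →
      -(c2 * (b - a)) ≤ Real.log ‖gaf N μ (3 / 2 + b * I)‖ - Real.log ‖gaf N μ (3 / 2 + a * I)‖ ∧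
      Real.log ‖gaf N μ (3 / 2 + b * I)‖ - Real.log ‖gaf N μ (3 / 2 + a * I)‖ ≤ -(c1 * (b - a)) := by
    intro a b c1 c2 hab h
    have hd := fun t => Q251.DS.HD.log_der hm hN hμ t
    have h1 := (convex_Icc a b).image_sub_le_mul_sub_of_deriv_le
      (f := fun t : ℝ => Real.log (‖gaf N μ (3 / 2 + t * I)‖ ^ 2)) (C := -2 * c1)
      (fun t _ => (hd t).continuousAt.continuousWithinAt)
      (fun t _ => (hd t).differentiableAt.differentiableWithinAt)
      (fun t ht => by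
        rw [(hd t).deriv]
        have := (h t (interior_subset ht)).1
        linarith) a (left_mem_Icc.2 hab) b (right_mem_Icc.2 hab) hab
    have h2 := (convex_Icc a b).mul_sub_le_image_sub_of_le_deriv
      (f := fun t : ℝ => Real.log (‖gaf N μ (3 / 2 + t * I)‖ ^ 2)) (C := -2 * c2)
      (fun t _ => (hd t).continuousAt.continuousWithinAt)
      (fun t _ => (hd t).differentiableAt.differentiableWithinAt)
      (fun t ht => by
        rw [(hd t).deriv]
        have := (h t (interior_subset ht)).2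
        linarith) a (left_mem_Icc.2 hab) b (right_mem_Icc.2 hab) hab
    rw [Real.log_pow, Real.log_pow] at h1 h2
    push_cast at h1 h2
    constructor <;> linarith
  refine ⟨(6 * m + ϑ) * (2 * Y), by positivity, ?_⟩
  intro a b hab
  rw [← hϑ]
  refine pieces (h := fun y : ℝ => Real.log ‖gaf N μ (3 / 2 + y * I)‖ + ϑ * |y|) hY.le hη.le
    (by positivity) ?_ ?_ ?_ a b hab
  · intro a b hab hb
    have h1 := mv a b (-ϑ - η) (-ϑ + η) hab (fun t ht => by
      have h2 := (H N (-t) (by linarith [ht.2])).2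
      rw [neg_neg, ← hϑ, abs_le] at h2
      constructor <;> linarith [h2.1, h2.2])
    show |Real.log ‖gaf N μ (3 / 2 + b * I)‖ + ϑ * |b| - (Real.log ‖gaf N μ (3 / 2 + a * I)‖ + ϑ * |a|)| ≤ _
    rw [abs_of_nonpos (by linarith : b ≤ 0), abs_of_nonpos (by linarith : a ≤ 0), abs_le]
    constructor <;> nlinarith [h1.1, h1.2]
  · intro a b ha hab hb
    have h1 := mv a b (-(6 * m)) (6 * m) hab (fun t _ => abs_le.1 (hall t))
    have h2 : |(|b| - |a|)| ≤ b - a := by
      refine (abs_abs_sub_abs_le_abs_sub b a).trans ?_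
      rw [abs_of_nonneg (by linarith)]
    show |Real.log ‖gaf N μ (3 / 2 + b * I)‖ + ϑ * |b| - (Real.log ‖gaf N μ (3 / 2 + a * I)‖ + ϑ * |a|)| ≤ _
    have e : Real.log ‖gaf N μ (3 / 2 + b * I)‖ + ϑ * |b| - (Real.log ‖gaf N μ (3 / 2 + a * I)‖ + ϑ * |a|) =
        (Real.log ‖gaf N μ (3 / 2 + b * I)‖ - Real.log ‖gaf N μ (3 / 2 + a * I)‖) + ϑ * (|b| - |a|) := by ring
    rw [e]
    refine (abs_add_le _ _).trans ?_
    have h3 : |Real.log ‖gaf N μ (3 / 2 + b * I)‖ - Real.log ‖gaf N μ (3 / 2 + a * I)‖| ≤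
        6 * m * (b - a) := by
      rw [abs_le]
      constructor <;> nlinarith [h1.1, h1.2]
    have h4 : |ϑ * (|b| - |a|)| ≤ ϑ * (b - a) := by
      rw [abs_mul, abs_of_pos hϑ0]
      exact mul_le_mul_of_nonneg_left h2 hϑ0.le
    have h5 : (6 * (m : ℝ) + ϑ) * (b - a) ≤ (6 * m + ϑ) * (2 * Y) :=
      mul_le_mul_of_nonneg_left (by linarith) (by positivity)
    linarith
  · intro a b ha hab
    have h1 := mv a b (ϑ - η) (ϑ + η) hab (fun t ht => by
      have h2 := (H N t (by linarith [ht.1])).1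
      rw [← hϑ, abs_le] at h2
      constructor <;> linarith [h2.1, h2.2])
    show |Real.log ‖gaf N μ (3 / 2 + b * I)‖ + ϑ * |b| - (Real.log ‖gaf N μ (3 / 2 + a * I)‖ + ϑ * |a|)| ≤ _
    rw [abs_of_nonneg (by linarith : 0 ≤ b), abs_of_nonneg (by linarith : 0 ≤ a), abs_le]
    constructor <;> nlinarith [h1.1, h1.2]

/-- the logarithm is small -/
lemma log_small {K η : ℝ} (hK : 0 ≤ K) (hη : 0 < η) : ∃ C : ℝ, 0 ≤ C ∧ ∀ v : ℝ, 0 ≤ v →
    K * Real.log (2 + 2 * v) ≤ η * v + C := by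
  obtain ⟨ε, hε⟩ : ∃ ε : ℝ, ε = η / (2 * (K + 1)) := ⟨_, rfl⟩
  have hε0 : 0 < ε := by rw [hε]; positivity
  refine ⟨K * (2 * ε + |Real.log ε|), by positivity, ?_⟩
  intro v hv
  have h1 := Real.log_le_sub_one_of_pos (show 0 < ε * (2 + 2 * v) by positivity)
  rw [Real.log_mul hε0.ne' (by positivity)] at h1
  have h2 : Real.log (2 + 2 * v) ≤ 2 * ε * v + (2 * ε + |Real.log ε|) := by
    have := neg_abs_le (Real.log ε)
    linarith
  have h3 := mul_le_mul_of_nonneg_left h2 hK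
  have h4 : K * (2 * ε * v) ≤ η * v := by
    have : K * (2 * ε) ≤ η := by
      rw [hε]
      have : K * (2 * (η / (2 * (K + 1)))) = η * (K / (K + 1)) := by field_simp
      rw [this]
      have h5 : K / (K + 1) ≤ 1 := by
        rw [div_le_one (by linarith)]
        linarith
      nlinarith
    nlinarith
  linarith

lemma p0_le (r : ℕ) (y v : ℝ) : p0 r (y + v) ≤ (1 + 2 * |v|) ^ (2 * r) * p0 r y := by
  obtain ⟨s, hs⟩ : ∃ s : ℂ, s = 3 / 2 + y * I := ⟨_, rfl⟩
  obtain ⟨t, ht⟩ : ∃ t : ℂ, t = 3 / 2 + ((y + v : ℝ) : ℂ) * I := ⟨_, rfl⟩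
  obtain ⟨h1, h2⟩ := s0_le y
  rw [← hs] at h1 h2
  have h3 : ‖t - s‖ = |v| := by
    have : t - s = (v : ℂ) * I := by
      rw [ht, hs]
      push_cast
      ring
    rw [this, norm_mul, norm_I, mul_one, norm_real, Real.norm_eq_abs]
  have hv := abs_nonneg v
  have e1 : ‖t‖ ≤ (1 + 2 * |v|) * ‖s‖ := by
    have : ‖t‖ ≤ ‖s‖ + |v| := by
      calc ‖t‖ = ‖s + (t - s)‖ := by congr 1; ring
        _ ≤ ‖s‖ + ‖t - s‖ := norm_add_le _ _
        _ = _ := by rw [h3]
    nlinarith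
  have e2 : ‖t - 1‖ ≤ (1 + 2 * |v|) * ‖s - 1‖ := by
    have : ‖t - 1‖ ≤ ‖s - 1‖ + |v| := by
      calc ‖t - 1‖ = ‖(s - 1) + (t - s)‖ := by congr 1; ring
        _ ≤ ‖s - 1‖ + ‖t - s‖ := norm_add_le _ _
        _ = _ := by rw [h3]
    nlinarith
  unfold p0 pp
  rw [← hs, ← ht, norm_pow, norm_pow, norm_mul, norm_mul, pow_mul, ← mul_pow]
  refine pow_le_pow_left₀ (by positivity) ?_ r
  calc ‖t‖ * ‖t - 1‖ ≤ ((1 + 2 * |v|) * ‖s‖) * ((1 + 2 * |v|) * ‖s - 1‖) := by gcongr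
    _ = (1 + 2 * |v|) ^ 2 * (‖s‖ * ‖s - 1‖) := by ring

lemma p0_log (r : ℕ) (y v : ℝ) : |Real.log (p0 r (y + v)) - Real.log (p0 r y)| ≤
    2 * r * Real.log (2 + 2 * |v|) := by
  have hv := abs_nonneg v
  have key : ∀ y v : ℝ, Real.log (p0 r (y + v)) - Real.log (p0 r y) ≤ 2 * r * Real.log (2 + 2 * |v|) := by
    intro y v
    have hv := abs_nonneg v
    have h1 := Real.log_le_log (p0_pos r _) (p0_le r y v)
    rw [Real.log_mul (by positivity) (p0_pos r y).ne', Real.log_pow] at h1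
    push_cast at h1
    have h2 : Real.log (1 + 2 * |v|) ≤ Real.log (2 + 2 * |v|) :=
      Real.log_le_log (by positivity) (by linarith)
    have h3 := mul_le_mul_of_nonneg_left h2 (show (0 : ℝ) ≤ 2 * r by positivity)
    linarith
  have h1 := key y v
  have h2 := key (y + v) (-v)
  rw [abs_neg, show y + v + -v = y by ring] at h2
  rw [abs_le]
  constructor <;> linarith

/-- **JOB RI** -/
theorem t_RI : S_RI := by
  intro m r B N μ X hm hB w
  have hm' : (1 : ℝ) ≤ m := by exact_mod_cast hm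
  obtain ⟨M, hM0, hM⟩ : ∃ M : ℝ, 0 ≤ M ∧ ∀ j, ‖μ j‖ ≤ M :=
    ⟨∑ j, ‖μ j‖, Finset.sum_nonneg fun _ _ => norm_nonneg _,
      fun j => Finset.single_le_sum (f := fun j => ‖μ j‖) (fun _ _ => norm_nonneg _) (Finset.mem_univ j)⟩
  have hN := w.one_le
  have hμ := w.re_le
  refine ⟨?_, ?_, ?_, ?_, ?_, ?_⟩
  · obtain ⟨K, A, hK, hA, H⟩ := Pool.Agent.Q260.DS.sp m r M 0 B hm hM0 le_rfl hB
    exact ⟨K, A, _, hK, hA, H N μ X w hM⟩
  · intro z
    obtain ⟨ε, hε, h⟩ := w.fe
    show ‖X (1 / 2 + -(conj z))‖ = ‖X (1 / 2 + z)‖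
    rw [h (1 / 2 + z), norm_mul, hε, one_mul, Complex.norm_conj]
    congr 2
    rw [map_add]
    have : conj (1 / 2 : ℂ) = 1 / 2 := by
      rw [map_div₀, map_one, map_ofNat]
    rw [this]
    ring
  · intro z hz
    refine w.nz _ ?_
    have : (1 / 2 + z : ℂ).re = 1 / 2 + z.re := by simp
    rw [this]
    linarith
  · -- the slope tends to infinity
    have j0 : Fin m := ⟨0, by omega⟩
    have h1 : ∀ y : ℝ, 0 < y - M → (Real.log (y - M) - 14 * m) / 2 ≤ el N μ y := by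
      intro y hy
      have h2 := (el_bd hN hμ y).1
      have h3 : y - M ≤ cnd N μ y := by
        unfold cnd
        have h4 : y - M ≤ 1 + ‖(y : ℂ) * I - μ j0‖ := by
          have h5 := norm_sub_norm_le ((y : ℂ) * I) (μ j0)
          have h6 : ‖(y : ℂ) * I‖ = |y| := by simp
          have h7 := le_abs_self y
          have h8 := hM j0
          rw [h6] at h5
          linarith
        have h5 : 1 + ‖(y : ℂ) * I - μ j0‖ ≤ ∏ j, (1 + ‖(y : ℂ) * I - μ j‖) := by
          rw [← Finset.mul_prod_erase _ _ (Finset.mem_univ j0)]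
          refine le_mul_of_one_le_right (by positivity) ?_
          refine Finset.prod_induction _ (fun x => (1 : ℝ) ≤ x) (fun a b ha hb => ?_) le_rfl fun j _ => ?_
          · nlinarith
          · linarith [norm_nonneg ((y : ℂ) * I - μ j)]
        have h6 : 0 ≤ ∏ j, (1 + ‖(y : ℂ) * I - μ j‖) := by linarith
        nlinarith
      have h4 := Real.log_le_log hy h3
      linarith
    have h2 : Tendsto (fun y : ℝ => (Real.log (y - M) - 14 * m) / 2) atTop atTop := by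
      have h3 : Tendsto (fun y : ℝ => y - M) atTop atTop := by
        simpa [sub_eq_add_neg] using tendsto_atTop_add_const_right atTop (-M) tendsto_id
      have h4 := Real.tendsto_log_atTop.comp h3
      have h5 : Tendsto (fun y : ℝ => Real.log (y - M) - 14 * m) atTop atTop := by
        simpa [sub_eq_add_neg] using tendsto_atTop_add_const_right atTop (-(14 * (m : ℝ))) h4
      exact h5.atTop_div_const (by norm_num)
    refine tendsto_atTop_mono' _ ?_ h2
    filter_upwards [eventually_gt_atTop M] with y hy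
    exact h1 y (by linarith)
  · positivity
  · intro η hη
    have h4η : 0 < η / 4 := by linarith
    obtain ⟨K, hK, H⟩ := gaf_rate hm hN μ hμ h4η
    obtain ⟨C1, hC1, H1⟩ := log_small (K := 2 * r) (by positivity) h4η
    obtain ⟨C2, hC2, H2⟩ := log_small (K := 25 * m) (by positivity) h4η
    refine ⟨K + C1 + C2, ?_⟩
    intro y v
    have gpd : ∀ t : ℝ, Real.log (gp r N μ t) = Real.log (p0 r t) +
        Real.log ‖gaf N μ (3 / 2 + t * I)‖ - el N μ t := by
      intro t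
      have h0 : 0 < ‖gaf N μ (3 / 2 + (t : ℂ) * I)‖ :=
        norm_pos_iff.2 ((gaf_GP hm hN hμ).ne _ (by simp; norm_num))
      have hp := p0_pos r t
      unfold gp Pool.Agent.Q260.DS.gg
      rw [Real.log_mul hp.ne' (by positivity), Real.log_mul h0.ne' (Real.exp_pos _).ne', Real.log_exp]
      unfold el
      ring
    have a1 := p0_log r y v
    have a2 := Pool.Agent.Q210.DS.el_shift hm hN hμ y v
    have hv := abs_nonneg v
    have a3 := H1 |v| hv
    have a4 := H2 |v| hv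
    have a5 : Real.log (2 + |v|) ≤ Real.log (2 + 2 * |v|) :=
      Real.log_le_log (by positivity) (by linarith)
    have a6 : 25 * (m : ℝ) * Real.log (2 + |v|) ≤ 25 * m * Real.log (2 + 2 * |v|) :=
      mul_le_mul_of_nonneg_left a5 (by positivity)
    have a7 : |(Real.log ‖gaf N μ (3 / 2 + ((y + v : ℝ) : ℂ) * I)‖ + Real.pi * m / 4 * |y + v|) -
        (Real.log ‖gaf N μ (3 / 2 + y * I)‖ + Real.pi * m / 4 * |y|)| ≤ η / 4 * |v| + K := by
      rcases le_total 0 v with h | h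
      · have := H y (y + v) (by linarith)
        rw [abs_of_nonneg h]
        have e : y + v - y = v := by ring
        rw [e] at this
        exact this
      · have := H (y + v) y (by linarith)
        rw [abs_of_nonpos h, abs_sub_comm]
        have e : y - (y + v) = -v := by ring
        rw [e] at this
        exact this
    rw [gpd, gpd]
    have a8 : 0 ≤ η * |v| := mul_nonneg hη.le hv
    rw [abs_le] at a1 a2 a7 ⊢
    constructor
    · linarith [a1.1, a1.2, a2.1, a2.2, a7.1, a7.2]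
    · linarith [a1.1, a1.2, a2.1, a2.2, a7.1, a7.2]

end Pool.Agent.Q224.DTR
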