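import Pool.Agent.Q260.DT.Stm2
import Pool.Agent.Q240.OW.P5
import Pool.Agent.W355.UN.Inst

set_option autoImplicit false

/-!
# Project DT (helper260), job RX: zeta (by helper224)
-/

namespace Pool.Agent.Q224.DTX

open Complex Filter Topology Metric Set MeasureTheory
open Pool.Agent.Q260.DT
open Pool.Agent.Q260.DS (Sys gp gg)
open Pool.Agent.W169.HF H353.E H353.F Q240.GS Q240.OW
open scoped ComplexConjugate

/-- scaling -/
theorem wp_smul {m r : ℕ} {B N : ℝ} {μ : Fin m → ℂ} {X : ℂ → ℂ} (h : WP r B N μ X) (hB : 0 ≤ B)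
    {c : ℝ} (hc : 1 ≤ c) : WP r (c * B) N μ (fun s => (c : ℂ) * X s) := by
  have hc0 : 0 < c := by linarith
  have hcn : ‖(c : ℂ)‖ = c := by rw [Complex.norm_real, Real.norm_of_nonneg hc0.le]
  refine ⟨h.one_le, h.re_le, ⟨h.slow.1.const_mul _, ?_⟩, ?_, ?_, ?_, ?_⟩
  · intro δ hδ
    obtain ⟨K, hK, h1⟩ := h.slow.2 δ hδ
    refine ⟨c * K, by positivity, fun z => ?_⟩
    rw [norm_mul, hcn, mul_assoc]
    exact mul_le_mul_of_nonneg_left (h1 z) hc0.le
  · obtain ⟨ε, hε, h1⟩ := h.fe
    refine ⟨ε, hε, fun s => ?_⟩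
    show (c : ℂ) * X s = ε * conj ((c : ℂ) * X (1 - conj s))
    rw [h1 s, map_mul, Complex.conj_ofReal]
    ring
  · intro s hs
    show ‖(c : ℂ) * X s‖ ≤ _
    rw [norm_mul, hcn, mul_assoc]
    exact mul_le_mul_of_nonneg_left (h.hi s hs) hc0.le
  · intro s hs
    show _ ≤ c * B * ‖(c : ℂ) * X s‖
    rw [norm_mul, hcn]
    refine (h.lo s hs).trans ?_
    have h0 : 0 ≤ B * ‖X s‖ := mul_nonneg hB (norm_nonneg _)
    have : c * B * (c * ‖X s‖) = c * c * (B * ‖X s‖) := by ring
    rw [this]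
    refine le_mul_of_one_le_left h0 ?_
    nlinarith
  · intro s hs h0
    exact mul_ne_zero (by exact_mod_cast hc0.ne') (h.nz s hs) h0

/-- **JOB RX** -/
theorem t_RX (h : S_RI) : S_RX := by
  have w0 := wp_raw Pool.Agent.W355.UN.zeta_raw
  have w := wp_smul w0 (Real.exp_pos _).le (c := 4) (by norm_num)
  have hb : (1 : ℝ) ≤ 4 * Real.exp ((([0] : List ℂ).length : ℝ) * b0) := by
    have h1 := Real.one_le_exp (mul_nonneg (Nat.cast_nonneg ([0] : List ℂ).length) b0_nonneg)
    linarith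
  obtain ⟨μ, hμ⟩ : ∃ μ : Fin ([0] : List ℂ).length → ℂ, μ = fun j => -(([0] : List ℂ).get j) :=
    ⟨_, rfl⟩
  rw [← hμ] at w
  have R := h _ 1 _ 1 μ _ le_rfl hb w
  refine ⟨el 1 μ, gp 1 1 μ, ?_, Real.exp 11, ?_, ?_⟩
  · have e1 : Real.pi * ((([0] : List ℂ).length : ℕ) : ℝ) / 4 = Real.pi / 4 := by
      simp
    have e2 : (fun z : ℂ => ((4 : ℝ) : ℂ) * ((1 / 2 + z) * ((1 / 2 + z) - 1) *
        completedRiemannZeta₀ (1 / 2 + z) + 1)) = Pool.Agent.H24R2.JP.XX := by
      funext z
      unfold Pool.Agent.H24R2.JP.XX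
      push_cast
      ring
    rw [e1] at R
    rw [← e2]
    exact R
  · have := Real.add_one_le_exp (11 : ℝ)
    linarith
  · intro y hy
    have hy1 : 12 ≤ y := by
      have := Real.add_one_le_exp (11 : ℝ)
      linarith
    have h1 := (el_bd (N := 1) (μ := μ) le_rfl w.re_le y).2
    have h2 : cnd 1 μ y = 1 + y := by
      unfold cnd
      rw [one_mul]
      have h3 : ∀ j, (1 + ‖(y : ℂ) * I - μ j‖ : ℝ) = 1 + y := by
        intro j
        have h4 : μ j = 0 := by
          rw [hμ]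
          have h5 := List.get_mem ([0] : List ℂ) j
          rw [List.mem_singleton] at h5
          show -(([0] : List ℂ).get j) = 0
          rw [h5, neg_zero]
        rw [h4, sub_zero, norm_mul, Complex.norm_I, mul_one, Complex.norm_real,
          Real.norm_of_nonneg (by linarith)]
      rw [Finset.prod_congr rfl fun j _ => h3 j, Finset.prod_const, Finset.card_univ, Fintype.card_fin]
      simp
    have e3 : ((([0] : List ℂ).length : ℕ) : ℝ) = 1 := by simp
    rw [h2, e3] at h1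
    have h3 : Real.log (1 + y) ≤ Real.log 2 + Real.log y := by
      rw [← Real.log_mul (by norm_num) (by linarith)]
      exact Real.log_le_log (by linarith) (by linarith)
    have h4 : (11 : ℝ) ≤ Real.log y := by
      rw [Real.le_log_iff_exp_le (by linarith)]
      exact hy
    have h5 : Real.log 2 ≤ 1 := by
      have := Real.log_two_lt_d9
      linarith
    linarith

end Pool.Agent.Q224.DTX
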